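import Pool.Agent.X320.DS.Trace

/-! Clifford's theorem: the restriction of a semisimple representation to a normal subgroup is semisimple. -/

set_option autoImplicit false
set_option linter.all false

namespace Pool.Agent.X289.TF

open Matrix Module
open Pool.Agent.X320.DS

section

variable {Γ : Type*} [Group Γ] {k : Type*} [Field k] {n : ℕ}

theorem stable_bot (ρ : Γ →* GL (Fin n) k) : Stable ρ ⊥ := by
  intro g w hw
  rw [Submodule.mem_bot] at hw ⊢
  rw [hw, Matrix.mulVec_zero]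

theorem stable_inf {ρ : Γ →* GL (Fin n) k} {W W' : Submodule k (Fin n → k)} (h : Stable ρ W) (h' : Stable ρ W') :
    Stable ρ (W ⊓ W') := fun g w hw => ⟨h g w hw.1, h' g w hw.2⟩

theorem stable_sup {ρ : Γ →* GL (Fin n) k} {W W' : Submodule k (Fin n → k)} (h : Stable ρ W) (h' : Stable ρ W') :
    Stable ρ (W ⊔ W') := by
  intro g w hw
  obtain ⟨a, ha, b, hb, rfl⟩ := Submodule.mem_sup.1 hw
  rw [Matrix.mulVec_add]
  exact Submodule.add_mem_sup (h g a ha) (h' g b hb)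

theorem stable_sSup {ρ : Γ →* GL (Fin n) k} {s : Set (Submodule k (Fin n → k))} (h : ∀ W ∈ s, Stable ρ W) :
    Stable ρ (sSup s) := by
  intro g
  have : sSup s ≤ (sSup s).comap (Matrix.toLin' (ρ g : Matrix (Fin n) (Fin n) k)) := by
    refine sSup_le fun W hW w hw => ?_
    rw [Submodule.mem_comap, Matrix.toLin'_apply]
    exact (le_sSup hW : W ≤ sSup s) (h W hW g w hw)
  intro w hw
  have := this hw
  rwa [Submodule.mem_comap, Matrix.toLin'_apply] at this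

/-- the translate of a subspace -/
noncomputable def tl (ρ : Γ →* GL (Fin n) k) (g : Γ) (W : Submodule k (Fin n → k)) : Submodule k (Fin n → k) :=
  W.map (Matrix.toLin' (ρ g : Matrix (Fin n) (Fin n) k))

theorem mem_tl {ρ : Γ →* GL (Fin n) k} {g : Γ} {W : Submodule k (Fin n → k)} {w : Fin n → k} :
    w ∈ tl ρ g W ↔ (ρ g⁻¹ : Matrix (Fin n) (Fin n) k) *ᵥ w ∈ W := by
  constructor
  · rintro ⟨x, hx, rfl⟩
    rw [Matrix.toLin'_apply, Matrix.mulVec_mulVec, ← Units.val_mul, ← map_mul, inv_mul_cancel, map_one,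
      Units.val_one, Matrix.one_mulVec]
    exact hx
  · intro h
    refine ⟨_, h, ?_⟩
    rw [Matrix.toLin'_apply, Matrix.mulVec_mulVec, ← Units.val_mul, ← map_mul, mul_inv_cancel, map_one,
      Units.val_one, Matrix.one_mulVec]

theorem tl_tl (ρ : Γ →* GL (Fin n) k) (g h : Γ) (W : Submodule k (Fin n → k)) : tl ρ g (tl ρ h W) = tl ρ (g * h) W := by
  ext w
  rw [mem_tl, mem_tl, mem_tl, Matrix.mulVec_mulVec, ← Units.val_mul, ← map_mul, _root_.mul_inv_rev]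

theorem tl_one (ρ : Γ →* GL (Fin n) k) (W : Submodule k (Fin n → k)) : tl ρ 1 W = W := by
  ext w
  rw [mem_tl, inv_one, map_one, Units.val_one, Matrix.one_mulVec]

theorem tl_mono (ρ : Γ →* GL (Fin n) k) (g : Γ) {W W' : Submodule k (Fin n → k)} (h : W ≤ W') :
    tl ρ g W ≤ tl ρ g W' := Submodule.map_mono h

theorem tl_le (ρ : Γ →* GL (Fin n) k) (g : Γ) {W W' : Submodule k (Fin n → k)} (h : tl ρ g W ≤ W') :
    W ≤ tl ρ g⁻¹ W' := by
  have := tl_mono ρ g⁻¹ h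
  rwa [tl_tl, inv_mul_cancel, tl_one] at this

theorem tl_le' (ρ : Γ →* GL (Fin n) k) (g : Γ) {W W' : Submodule k (Fin n → k)} (h : W ≤ tl ρ g W') :
    tl ρ g⁻¹ W ≤ W' := by
  have := tl_mono ρ g⁻¹ h
  rwa [tl_tl, inv_mul_cancel, tl_one] at this

variable (N : Subgroup Γ) [hN : N.Normal]

theorem tl_stable (ρ : Γ →* GL (Fin n) k) (g : Γ) {W : Submodule k (Fin n → k)} (h : Stable (ρ.comp N.subtype) W) :
    Stable (ρ.comp N.subtype) (tl ρ g W) := by
  intro u w hw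
  rw [mem_tl] at hw ⊢
  have h1 : g⁻¹ * u.1 * g ∈ N := by
    have := hN.conj_mem u.1 u.2 g⁻¹
    rwa [inv_inv] at this
  have h2 := h ⟨_, h1⟩ _ hw
  have e : ((ρ.comp N.subtype) ⟨g⁻¹ * u.1 * g, h1⟩ : Matrix (Fin n) (Fin n) k) * (ρ g⁻¹ : Matrix (Fin n) (Fin n) k) =
      (ρ g⁻¹ : Matrix (Fin n) (Fin n) k) * ((ρ.comp N.subtype) u : Matrix (Fin n) (Fin n) k) := by
    show (ρ (g⁻¹ * u.1 * g) : Matrix (Fin n) (Fin n) k) * (ρ g⁻¹ : Matrix (Fin n) (Fin n) k) =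
      (ρ g⁻¹ : Matrix (Fin n) (Fin n) k) * (ρ u.1 : Matrix (Fin n) (Fin n) k)
    rw [← Units.val_mul, ← Units.val_mul, ← map_mul, ← map_mul]
    congr 2
    group
  rw [Matrix.mulVec_mulVec, e, ← Matrix.mulVec_mulVec] at h2
  exact h2

/-- minimal nonzero stable subspaces -/
def Mini (ρ : Γ →* GL (Fin n) k) (W : Submodule k (Fin n → k)) : Prop :=
  Stable ρ W ∧ W ≠ ⊥ ∧ ∀ W' ≤ W, Stable ρ W' → W' ≠ ⊥ → W' = W

theorem exists_mini {ρ : Γ →* GL (Fin n) k} {C : Submodule k (Fin n → k)} (hC : Stable ρ C) (h0 : C ≠ ⊥) :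
    ∃ W ≤ C, Mini ρ W := by
  obtain ⟨W, ⟨h1, h2, h3⟩, h4⟩ := (wellFounded_lt (α := Submodule k (Fin n → k))).has_min
    {W | Stable ρ W ∧ W ≠ ⊥ ∧ W ≤ C} ⟨C, hC, h0, le_rfl⟩
  refine ⟨W, h3, h1, h2, fun W' hW' hs hne => ?_⟩
  by_contra hcon
  exact h4 W' ⟨hs, hne, hW'.trans h3⟩ (lt_of_le_of_ne hW' hcon)

theorem semisimple_of_sSup {ρ : Γ →* GL (Fin n) k} (h : sSup {W | Mini ρ W} = ⊤) : Semisimple ρ := by
  intro W hW
  obtain ⟨W', ⟨h1, h2⟩, h3⟩ := (wellFounded_gt (α := Submodule k (Fin n → k))).has_min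
    {W' | Stable ρ W' ∧ Disjoint W W'} ⟨⊥, stable_bot ρ, disjoint_bot_right⟩
  refine ⟨W', h1, h2, ?_⟩
  rw [codisjoint_iff]
  by_contra hne
  obtain ⟨X, hX, hXW⟩ : ∃ X, Mini ρ X ∧ ¬ X ≤ W ⊔ W' := by
    by_contra hcon
    push Not at hcon
    apply hne
    rw [eq_top_iff, ← h]
    exact sSup_le fun X hX => hcon X hX
  have hd : Disjoint (W ⊔ W') X := by
    rw [disjoint_iff]
    by_contra h4
    have h5 := hX.2.2 ((W ⊔ W') ⊓ X) inf_le_right (stable_inf (stable_sup hW h1) hX.1) h4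
    exact hXW (h5 ▸ inf_le_left)
  have h6 : Disjoint W (W' ⊔ X) := Disjoint.disjoint_sup_right_of_disjoint_sup_left h2 hd
  refine h3 (W' ⊔ X) ⟨stable_sup h1 hX.1, h6⟩ ?_
  show W' < W' ⊔ X
  refine lt_of_le_of_ne le_sup_left fun h7 => hXW ?_
  have : X ≤ W' := by rw [h7]; exact le_sup_right
  exact this.trans le_sup_right

/-- **Clifford's theorem** -/
theorem clifford {ρ : Γ →* GL (Fin n) k} (hρ : Semisimple ρ) : Semisimple (ρ.comp N.subtype) := by
  apply semisimple_of_sSup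
  set S : Submodule k (Fin n → k) := sSup {W | Mini (ρ.comp N.subtype) W} with hS
  have hmini : ∀ g W, Mini (ρ.comp N.subtype) W → Mini (ρ.comp N.subtype) (tl ρ g W) := by
    intro g W hW
    refine ⟨tl_stable N ρ g hW.1, fun h => hW.2.1 ?_, fun W' hW' hs hne => ?_⟩
    · have h1 : W ≤ tl ρ g⁻¹ ⊥ := tl_le ρ g h.le
      rw [tl, Submodule.map_bot] at h1
      exact le_bot_iff.1 h1
    · have h1 := hW.2.2 (tl ρ g⁻¹ W') (tl_le' ρ g hW') (tl_stable N ρ g⁻¹ hs) (fun h => hne ?_)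
      · rw [← h1, tl_tl, mul_inv_cancel, tl_one]
      · have h2 : tl ρ g (tl ρ g⁻¹ W') = W' := by rw [tl_tl, mul_inv_cancel, tl_one]
        rw [← h2, h, tl, Submodule.map_bot]
  have hst : Stable ρ S := by
    intro g
    have h1 : S ≤ tl ρ g⁻¹ S := by
      refine sSup_le fun W hW => tl_le ρ g ?_
      exact le_sSup (hmini g W hW)
    intro w hw
    have h2 := h1 hw
    rw [mem_tl, inv_inv] at h2
    exact h2
  obtain ⟨C, hC, hSC⟩ := hρ S hst
  have hC0 : C = ⊥ := by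
    by_contra h0
    obtain ⟨W, hW, hm⟩ := exists_mini (ρ := ρ.comp N.subtype) (C := C) (fun u w hw => hC u w hw) h0
    have h1 : W ≤ S := le_sSup hm
    exact hm.2.1 (le_bot_iff.1 (hSC.disjoint h1 hW))
  have := hSC.sup_eq_top
  rwa [hC0, sup_bot_eq] at this

end

end Pool.Agent.X289.TF
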