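import Pool.Agent.X289.TF.Clifford

/-! Conjugates of semisimple representations are semisimple. -/

set_option autoImplicit false
set_option linter.all false

namespace Pool.Agent.X289.TF

open Matrix Module
open Pool.Agent.X320.DS

section

variable {Γ : Type*} [Group Γ] {k : Type*} [Field k] {n : ℕ}

/-- the linear equivalence of an invertible matrix -/
noncomputable def eqv (A : GL (Fin n) k) : (Fin n → k) ≃ₗ[k] (Fin n → k) :=
  LinearEquiv.ofLinear (Matrix.toLin' (A : Matrix (Fin n) (Fin n) k))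
    (Matrix.toLin' ((A⁻¹ : GL (Fin n) k) : Matrix (Fin n) (Fin n) k))
    (by rw [← Matrix.toLin'_mul, ← Units.val_mul, mul_inv_cancel, Units.val_one, Matrix.toLin'_one])
    (by rw [← Matrix.toLin'_mul, ← Units.val_mul, inv_mul_cancel, Units.val_one, Matrix.toLin'_one])

theorem eqv_apply (A : GL (Fin n) k) (w : Fin n → k) : eqv A w = (A : Matrix (Fin n) (Fin n) k) *ᵥ w :=
  Matrix.toLin'_apply _ _

theorem stable_conj {ρ ρ' : Γ →* GL (Fin n) k} {A : GL (Fin n) k} (h : ∀ x, ρ' x = A * ρ x * A⁻¹)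
    {W : Submodule k (Fin n → k)} (hW : Stable ρ W) : Stable ρ' (W.map (eqv A).toLinearMap) := by
  rintro g _ ⟨w, hw, rfl⟩
  refine ⟨(ρ g : Matrix (Fin n) (Fin n) k) *ᵥ w, hW g w hw, ?_⟩
  show eqv A _ = (ρ' g : Matrix (Fin n) (Fin n) k) *ᵥ eqv A w
  rw [eqv_apply, eqv_apply, Matrix.mulVec_mulVec, Matrix.mulVec_mulVec, h, ← Units.val_mul, ← Units.val_mul,
    inv_mul_cancel_right]

theorem semisimple_conj {ρ ρ' : Γ →* GL (Fin n) k} {A : GL (Fin n) k} (h : ∀ x, ρ' x = A * ρ x * A⁻¹)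
    (hρ : Semisimple ρ) : Semisimple ρ' := by
  intro W hW
  have h' : ∀ x, ρ x = A⁻¹ * ρ' x * (A⁻¹)⁻¹ := fun x => by rw [h]; group
  obtain ⟨W₁, hW₁, hc⟩ := hρ _ (stable_conj h' hW)
  refine ⟨_, stable_conj h hW₁, ?_⟩
  have h1 := (Submodule.orderIsoMapComap (eqv A)).isCompl hc
  have e : (Submodule.orderIsoMapComap (eqv A)) (W.map (eqv A⁻¹).toLinearMap) = W := by
    show (W.map (eqv A⁻¹).toLinearMap).map (eqv A).toLinearMap = W
    ext w
    constructor
    · rintro ⟨_, ⟨y, hy, rfl⟩, rfl⟩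
      show eqv A (eqv A⁻¹ y) ∈ W
      rw [eqv_apply, eqv_apply, Matrix.mulVec_mulVec, ← Units.val_mul, mul_inv_cancel, Units.val_one,
        Matrix.one_mulVec]
      exact hy
    · intro hw
      refine ⟨eqv A⁻¹ w, ⟨w, hw, rfl⟩, ?_⟩
      show eqv A (eqv A⁻¹ w) = w
      rw [eqv_apply, eqv_apply, Matrix.mulVec_mulVec, ← Units.val_mul, mul_inv_cancel, Units.val_one,
        Matrix.one_mulVec]
  rw [e] at h1
  exact h1

end

end Pool.Agent.X289.TF
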