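import Pool.Agent.X289.TF.NF

/-! Patching of Galois representations over two fields and over families of fields. -/

set_option autoImplicit false
set_option linter.all false

namespace Pool.Agent.X289.TF

open Topology Filter NumberField IsDedekindDomain Polynomial
open Pool.Agent.W401.Cheb
open Pool.Agent.X320.DS
open Matrix Module

variable {K : Type} [Field K] [NumberField K] {n : ℕ} {Ω : Type} [Field Ω] [TopologicalSpace Ω]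
  [IsTopologicalRing Ω] [T2Space Ω]

theorem isInert_conj {v : HeightOneSpectrum (𝓞 K)} {σ : GK K} (h : IsInert v σ) (τ : GK K) :
    IsInert v (τ * σ * τ⁻¹) := by
  obtain ⟨Q, h1, h2, h3⟩ := h
  refine ⟨Pool.Agent.W401.Frob.tr τ Q, Pool.Agent.W401.Frob.tr_max τ Q h1,
    (Pool.Agent.W401.Frob.tr_comap τ Q).trans h2, fun x => ?_⟩
  have h4 := h3 (τ⁻¹ • x)
  show τ⁻¹ • ((τ * σ * τ⁻¹) • x - x) ∈ Q
  rw [smul_sub]
  have e : τ⁻¹ • (τ * σ * τ⁻¹) • x = σ • τ⁻¹ • x := by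
    rw [← mul_smul, ← mul_smul]
    congr 1
    group
  rw [e]
  exact h4

theorem isFrob_conj' {v : HeightOneSpectrum (𝓞 K)} {σ : GK K} (h : IsFrob v σ) (g : GK K) :
    IsFrob v (g⁻¹ * σ * g) := by
  have := isFrob_conj h g⁻¹
  rwa [inv_inv] at this

theorem isInert_conj' {v : HeightOneSpectrum (𝓞 K)} {σ : GK K} (h : IsInert v σ) (g : GK K) :
    IsInert v (g⁻¹ * σ * g) := by
  have := isInert_conj h g⁻¹
  rwa [inv_inv] at this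

theorem charpoly_conj' (ρ : GK K →* GL (Fin n) Ω) (g x : GK K) :
    (ρ (g⁻¹ * x * g) : Matrix (Fin n) (Fin n) Ω).charpoly = (ρ x : Matrix (Fin n) (Fin n) Ω).charpoly := by
  have h := charpoly_conj (ρ g⁻¹) (ρ x)
  rw [← map_inv, inv_inv, ← map_mul, ← map_mul] at h
  exact h

theorem eq_one_conj' (ρ : GK K →* GL (Fin n) Ω) (g x : GK K) (h : ρ (g⁻¹ * x * g) = 1) : ρ x = 1 := by
  have e : x = g * (g⁻¹ * x * g) * g⁻¹ := by group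
  rw [e, map_mul, map_mul, h, mul_one, ← map_mul, mul_inv_cancel, map_one]

theorem charpoly_eq_on (hn : ((n.factorial : ℕ) : Ω) ≠ 0) {H : Subgroup (GK K)} {ρ : GK K →* GL (Fin n) Ω}
    {ρ₁ : H →* GL (Fin n) Ω} (h : ∀ x : H, (ρ x : Matrix (Fin n) (Fin n) Ω).trace =
      (ρ₁ x : Matrix (Fin n) (Fin n) Ω).trace) (x : H) :
    (ρ x : Matrix (Fin n) (Fin n) Ω).charpoly = (ρ₁ x : Matrix (Fin n) (Fin n) Ω).charpoly := by
  refine charpoly_eq_of_traces' hn _ _ fun j => ?_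
  rw [← Units.val_pow_eq_pow_val, ← map_pow, ← Units.val_pow_eq_pow_val, ← map_pow, ← h (x ^ j)]
  rfl

/-- **Two fields.** -/
theorem nf_two (hn : ((n.factorial : ℕ) : Ω) ≠ 0) {S : Set (HeightOneSpectrum (𝓞 K))} (hS : S.Finite)
    {Q : HeightOneSpectrum (𝓞 K) → Polynomial Ω} (H₁ : Subgroup (GK K)) (hH₁ : IsOpen (H₁ : Set (GK K)))
    (ρ₁ : H₁ →* GL (Fin n) Ω) (hc₁ : Continuous ρ₁) (hs₁ : Semisimple ρ₁) (hQ₁ : COn H₁ ρ₁ S Q) :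
    ∃ U : Subgroup (GK K), U.Normal ∧ IsOpen (U : Set (GK K)) ∧ ∀ H₂ : Subgroup (GK K), IsOpen (H₂ : Set (GK K)) →
      Gen H₂ U → ∀ ρ₂ : H₂ →* GL (Fin n) Ω, Continuous ρ₂ → Semisimple ρ₂ → COn H₂ ρ₂ S Q →
        ∃ ρ : GK K →* GL (Fin n) Ω, Continuous ρ ∧ Semisimple ρ ∧ (∀ x : H₂, ρ x = ρ₂ x) ∧
          (∀ x : H₁, (ρ x : Matrix (Fin n) (Fin n) Ω).trace = (ρ₁ x : Matrix (Fin n) (Fin n) Ω).trace) ∧
          ∀ v, v ∉ S →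
            (∀ τ, IsInert v τ → ∀ g, g⁻¹ * τ * g ∈ H₂ → ρ τ = 1) ∧
            (∀ τ, IsInert v τ → CharZero Ω → ∀ g, g⁻¹ * τ * g ∈ H₁ → ρ τ = 1) ∧
            ∀ σ, IsFrob v σ → ∀ g, (g⁻¹ * σ * g ∈ H₁ ∨ g⁻¹ * σ * g ∈ H₂) →
              (ρ σ⁻¹ : Matrix (Fin n) (Fin n) Ω).charpoly = Q v := by
  obtain ⟨N, U, hNn, hUn, hNo, hUo, hUN, hN1, hU⟩ := exists_NU hn H₁ hH₁ ρ₁ hc₁ hs₁
  haveI := hNn
  refine ⟨U, hUn, hUo, fun H₂ hH₂ hg ρ₂ hc₂ hs₂ hQ₂ => ?_⟩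
  obtain ⟨ρ, hc, hs, he, ht, h1⟩ := two hn hs₁ hUN hN1 hU
    (fun g u hu hu' => consistent_conj hS hH₁ hH₁ hc₁ hc₁ hQ₁ hQ₁ g u hu hu') H₂ hH₂ ρ₂ hc₂ hs₂
    (fun x h1 h2 => by
      have h := consistent_conj hS hH₂ hH₁ hc₂ hc₁ hQ₂ hQ₁ 1 x h2 (by rwa [inv_one, one_mul, mul_one])
      have e : (⟨1⁻¹ * x * 1, by rwa [inv_one, one_mul, mul_one]⟩ : H₁) = ⟨x, h1⟩ := by
        apply Subtype.ext
        show 1⁻¹ * x * 1 = x
        group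
      rw [e] at h
      exact h) hg
  have ht' : ∀ x : H₁, (ρ x : Matrix (Fin n) (Fin n) Ω).trace = (ρ₁ x : Matrix (Fin n) (Fin n) Ω).trace :=
    fun x => ht x.1 x.2
  refine ⟨ρ, hc, hs, fun x => he x.1 x.2, ht', fun v hv => ⟨fun τ hτ g hg' => ?_,
    fun τ hτ h0 g hg' => ?_, fun σ hσ g hg' => ?_⟩⟩
  · refine eq_one_conj' ρ g τ ?_
    rw [he _ hg']
    exact (hQ₂ v hv).1 ⟨_, hg'⟩ (isInert_conj' hτ g)
  · refine eq_one_conj' ρ g τ ?_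
    haveI : N.FiniteIndex := by
      haveI : Finite (GK K ⧸ N) := Subgroup.quotient_finite_of_isOpen _ hNo
      exact Subgroup.finiteIndex_of_finite_quotient
    set y : H₁ := ⟨g⁻¹ * τ * g, hg'⟩ with hy
    have hy1 : ρ₁ y = 1 := (hQ₁ v hv).1 y (isInert_conj' hτ g)
    obtain ⟨m, hm0, -, hm⟩ := Subgroup.exists_pow_mem_of_index_ne_zero (H := N) Subgroup.FiniteIndex.index_ne_zero
      (g⁻¹ * τ * g)
    have h2 : ρ ((g⁻¹ * τ * g) ^ m) = 1 := by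
      refine h1 _ hm ?_
      have e : (⟨(g⁻¹ * τ * g) ^ m, hN1 hm⟩ : H₁) = y ^ m := rfl
      rw [e, map_pow, hy1, one_pow]
    have h3 := charpoly_eq_on hn ht' y
    apply Units.ext
    refine eq_one_of_pow (ρ (g⁻¹ * τ * g) : Matrix (Fin n) (Fin n) Ω) hm0 ?_ ?_
    · rw [← Units.val_pow_eq_pow_val, ← map_pow, h2, Units.val_one]
    · rw [hy1] at h3
      exact h3
  · have h2 := charpoly_conj' ρ g σ⁻¹
    rw [← h2]
    have e : g⁻¹ * σ⁻¹ * g = (g⁻¹ * σ * g)⁻¹ := by group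
    have hF := isFrob_conj' hσ g
    rcases hg' with hg' | hg'
    · have h3 := charpoly_eq_on hn ht' ⟨(g⁻¹ * σ * g)⁻¹, H₁.inv_mem hg'⟩
      rw [e, h3]
      exact (hQ₁ v hv).2 _ (by
        show IsFrob v ((g⁻¹ * σ * g)⁻¹)⁻¹
        rwa [inv_inv])
    · rw [e, he _ (H₂.inv_mem hg')]
      exact (hQ₂ v hv).2 _ (by
        show IsFrob v ((g⁻¹ * σ * g)⁻¹)⁻¹
        rwa [inv_inv])

/-- **Families of fields.** -/
theorem nf_family (hn : ((n.factorial : ℕ) : Ω) ≠ 0) {S : Set (HeightOneSpectrum (𝓞 K))} (hS : S.Finite)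
    {Q : HeightOneSpectrum (𝓞 K) → Polynomial Ω} (𝓗 : Set (Subgroup (GK K)))
    (hopen : ∀ H ∈ 𝓗, IsOpen (H : Set (GK K)))
    (hρ : ∀ H ∈ 𝓗, ∃ ρ : H →* GL (Fin n) Ω, Continuous ρ ∧ Semisimple ρ ∧ COn H ρ S Q)
    (hne : ∀ U : Subgroup (GK K), U.Normal → IsOpen (U : Set (GK K)) → ∃ H ∈ 𝓗, Gen H U) :
    ∃ ρ : GK K →* GL (Fin n) Ω, Continuous ρ ∧ Semisimple ρ ∧ ∃ U : Subgroup (GK K), U.Normal ∧
      IsOpen (U : Set (GK K)) ∧ ∀ H ∈ 𝓗, Gen H U → ∀ v, v ∉ S → ∀ σ g : GK K, g⁻¹ * σ * g ∈ H →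
        (IsInert v σ → ρ σ = 1) ∧
        (IsFrob v σ → (ρ σ⁻¹ : Matrix (Fin n) (Fin n) Ω).charpoly = Q v) := by
  choose R hRc hRs hRQ using hρ
  have F : Family 𝓗 R := by
    refine ⟨hopen, hRc, hRs, fun H hH H' hH' g x hx hx' => ?_, hne⟩
    exact consistent_conj hS (hopen H hH) (hopen H' hH') (hRc _ _) (hRc _ _) (hRQ _ _) (hRQ _ _) g x hx hx'
  obtain ⟨ρ, hc, hs, U, hUn, hUo, hU⟩ := family hn F
  refine ⟨ρ, hc, hs, U, hUn, hUo, fun H hH hg v hv σ g hσH => ?_⟩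
  obtain ⟨ht, ρ', hs', ht', he'⟩ := hU H hH hg
  refine ⟨fun hI => ?_, fun hF => ?_⟩
  · refine eq_one_conj' ρ g σ ?_
    refine eq_one_of_trace hs hn ht' ?_
    rw [he' ⟨_, hσH⟩]
    exact (hRQ H hH v hv).1 ⟨_, hσH⟩ (isInert_conj' hI g)
  · have h2 := charpoly_conj' ρ g σ⁻¹
    rw [← h2]
    have e : g⁻¹ * σ⁻¹ * g = (g⁻¹ * σ * g)⁻¹ := by group
    have h3 := charpoly_eq_on hn ht ⟨(g⁻¹ * σ * g)⁻¹, H.inv_mem hσH⟩
    rw [e, h3]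
    exact (hRQ H hH v hv).2 _ (by
      show IsFrob v ((g⁻¹ * σ * g)⁻¹)⁻¹
      have := isFrob_conj' hF g
      rwa [inv_inv])

end Pool.Agent.X289.TF
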