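import Pool.Agent.X289.TF.Main

/-! Patching of homomorphisms to a linear group which agree on the intersections. -/

set_option autoImplicit false
set_option linter.all false

namespace Pool.Agent.X289.TF

open Topology Filter NumberField IsDedekindDomain Polynomial
open Pool.Agent.W401.Cheb
open Pool.Agent.X320.DS
open Matrix Module

section cheb

variable {K : Type} [Field K] [NumberField K]

/-- two continuous functions on an open subgroup which agree on the geometric Frobenius elements are equal -/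
theorem cheb_eq {S : Set (HeightOneSpectrum (𝓞 K))} (hS : S.Finite) {I : Subgroup (GK K)}
    (hI : IsOpen (I : Set (GK K))) {Y : Type*} [TopologicalSpace Y] [T2Space Y] (a b : I → Y) (ha : Continuous a)
    (hb : Continuous b) (h : ∀ v, v ∉ S → ∀ x : I, IsFrob v ((x : GK K)⁻¹) → a x = b x) (x : I) : a x = b x := by
  by_contra hne
  let A : Set I := {x | a x ≠ b x}
  have hA : IsOpen A := isOpen_ne_fun ha hb
  have hA2 : IsOpen (Subtype.val '' A : Set (GK K)) := hI.isOpenMap_subtype_val _ hA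
  have hgA : x.1 ∈ (Subtype.val '' A : Set (GK K)) := ⟨x, hne, rfl⟩
  have hW : IsOpen ((fun y => x.1 * y) ⁻¹' (Subtype.val '' A : Set (GK K))) := hA2.preimage (continuous_const_mul _)
  have h1 : (1 : GK K) ∈ (fun y => x.1 * y) ⁻¹' (Subtype.val '' A : Set (GK K)) := by
    show x.1 * 1 ∈ (Subtype.val '' A : Set (GK K))
    rwa [mul_one]
  obtain ⟨U, hU⟩ := ProfiniteGrp.exist_openNormalSubgroup_sub_open_nhds_of_one hW h1
  haveI : U.toSubgroup.Normal := U.isNormal'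
  obtain ⟨v, hv, σ, hσ, hmk⟩ := exists_frob_coset U.toSubgroup U.isOpen' x.1 S hS
  have h2 : x.1⁻¹ * σ⁻¹ ∈ U.toSubgroup := QuotientGroup.eq.1 hmk.symm
  have h3 := hU h2
  have h4 : σ⁻¹ ∈ (Subtype.val '' A : Set (GK K)) := by
    have : x.1 * (x.1⁻¹ * σ⁻¹) ∈ (Subtype.val '' A : Set (GK K)) := h3
    rwa [mul_inv_cancel_left] at this
  obtain ⟨y, hyA, hy⟩ := h4
  apply hyA
  refine h v hv y ?_
  rw [hy, inv_inv]
  exact hσ

/-- the open subgroup of the elements of `H` with `c⁻¹ x c` in `H'` -/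
noncomputable def cInter (H H' : Subgroup (GK K)) (c : GK K) : Subgroup (GK K) := H ⊓ H'.comap (MulAut.conj c⁻¹).toMonoidHom

theorem mem_cInter {H H' : Subgroup (GK K)} {c x : GK K} : x ∈ cInter H H' c ↔ x ∈ H ∧ c⁻¹ * x * c ∈ H' := by
  constructor
  · rintro ⟨h1, h2⟩
    refine ⟨h1, ?_⟩
    have h : (MulAut.conj c⁻¹) x ∈ H' := h2
    rwa [MulAut.conj_apply, inv_inv] at h
  · rintro ⟨h1, h2⟩
    refine ⟨h1, ?_⟩
    show (MulAut.conj c⁻¹) x ∈ H'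
    rwa [MulAut.conj_apply, inv_inv]

theorem cInter_open {H H' : Subgroup (GK K)} (hH : IsOpen (H : Set (GK K))) (hH' : IsOpen (H' : Set (GK K)))
    (c : GK K) : IsOpen (cInter H H' c : Set (GK K)) := by
  refine hH.inter ?_
  refine hH'.preimage ?_
  have : (fun x : GK K => (MulAut.conj c⁻¹).toMonoidHom x) = fun x => c⁻¹ * x * c := by
    funext x
    show (MulAut.conj c⁻¹) x = _
    rw [MulAut.conj_apply, inv_inv]
  show Continuous (fun x : GK K => (MulAut.conj c⁻¹).toMonoidHom x)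
  rw [this]
  exact (continuous_const_mul _).mul continuous_const

end cheb

section abs

variable {G : Type*} [Group G] [TopologicalSpace G] [IsTopologicalGroup G] [CompactSpace G]
  [TotallyDisconnectedSpace G] {k : Type*} [Field k] [TopologicalSpace k] [IsTopologicalRing k] [T2Space k] {n : ℕ}

variable {H₁ : Subgroup G} {ρ₁ : H₁ →* GL (Fin n) k} {N U : Subgroup G}

/-- **Patching of two homomorphisms which agree on the intersection.** -/
theorem two_exact (hn : ((n.factorial : ℕ) : k) ≠ 0) (hs₁ : Semisimple ρ₁) [N.Normal] (hUN : U ≤ N) (hN1 : N ≤ H₁)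
    (hU : ∀ H : Subgroup G, Gen H U → ∀ (u : G) (hu : u ∈ N),
        ((ρ₁.comp (Subgroup.inclusion hN1)) ⟨u, hu⟩ : Matrix (Fin n) (Fin n) k) ∈
          sp (ρ₁.comp (Subgroup.inclusion hN1)) {x | x.1 ∈ H})
    (hconj : ∀ (g u : G) (hu : u ∈ H₁) (hu' : g⁻¹ * u * g ∈ H₁),
      (ρ₁ ⟨g⁻¹ * u * g, hu'⟩ : Matrix (Fin n) (Fin n) k).trace =
      (ρ₁ ⟨u, hu⟩ : Matrix (Fin n) (Fin n) k).trace)
    (H₂ : Subgroup G) (hH₂ : IsOpen (H₂ : Set G)) (ρ₂ : H₂ →* GL (Fin n) k) (hc₂ : Continuous ρ₂)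
    (hs₂ : Semisimple ρ₂)
    (hag : ∀ (x : G) (h1 : x ∈ H₁) (h2 : x ∈ H₂), ρ₁ ⟨x, h1⟩ = ρ₂ ⟨x, h2⟩) (hgen : Gen H₂ U) :
    ∃ ρ : G →* GL (Fin n) k, Continuous ρ ∧ Semisimple ρ ∧ (∀ (h : G) (hh : h ∈ H₂), ρ h = ρ₂ ⟨h, hh⟩) ∧
      (∀ (h : G) (hh : h ∈ H₁), ρ h = ρ₁ ⟨h, hh⟩) := by
  obtain ⟨ρ, hc, hs, h2, h1, -⟩ := two hn hs₁ hUN hN1 hU hconj H₂ hH₂ ρ₂ hc₂ hs₂
    (fun x h1 h2 => by rw [hag x h1 h2]) hgen
  have key : ∀ (u : G) (hu : u ∈ N), ρ u = ρ₁ ⟨u, hN1 hu⟩ := by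
    intro u hu
    obtain ⟨m, c, x, hx, e⟩ := exists_comb (hU H₂ hgen u hu)
    have h3 := transfer (ρ := ρ₁.comp (Subgroup.inclusion hN1)) (ρ' := ρ.comp N.subtype) (clifford N hs) hn
      (fun g => (h1 g.1 (hN1 g.2)).symm) (Finset.univ : Finset (Option (Fin m)))
      (fun o => o.elim ⟨u, hu⟩ x) (fun o => o.elim (-1) c) (by
        rw [Fintype.sum_option]
        show (-1 : k) • ((ρ₁.comp (Subgroup.inclusion hN1)) ⟨u, hu⟩ : Matrix (Fin n) (Fin n) k) +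
          ∑ i, c i • ((ρ₁.comp (Subgroup.inclusion hN1)) (x i) : Matrix (Fin n) (Fin n) k) = 0
        rw [← e, neg_one_smul, neg_add_cancel])
    rw [Fintype.sum_option] at h3
    change (-1 : k) • (ρ u : Matrix (Fin n) (Fin n) k) + ∑ i, c i • (ρ (x i).1 : Matrix (Fin n) (Fin n) k) = 0 at h3
    rw [neg_one_smul, neg_add_eq_zero] at h3
    apply Units.ext
    rw [h3]
    refine Eq.trans ?_ e.symm
    refine Finset.sum_congr rfl fun i _ => ?_
    have h4 : ρ (x i).1 = ρ₁ ⟨(x i).1, hN1 (x i).2⟩ := by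
      rw [h2 (x i).1 (hx i), hag (x i).1 (hN1 (x i).2) (hx i)]
    rw [h4]
    rfl
  refine ⟨ρ, hc, hs, h2, fun g hg => ?_⟩
  obtain ⟨h, hh, u, hu, rfl⟩ := (hgen.mono le_rfl hUN) g
  have hh1 : h ∈ H₁ := by
    have h3 := H₁.mul_mem hg (H₁.inv_mem (hN1 hu))
    rwa [mul_inv_cancel_right] at h3
  rw [map_mul, h2 h hh, key u hu, ← hag h hh1 hh, ← map_mul]
  rfl

/-- an indexed family of open subgroups with homomorphisms which agree on intersections -/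
structure FamE {ι : Type*} (Hs : ι → Subgroup G) (R : ∀ i, Hs i →* GL (Fin n) k) : Prop where
  opn : ∀ i, IsOpen (Hs i : Set G)
  cont : ∀ i, Continuous (R i)
  semi : ∀ i, Semisimple (R i)
  tr : ∀ (i : ι) (g u : G) (hu : u ∈ Hs i) (hu' : g⁻¹ * u * g ∈ Hs i),
      (R i ⟨g⁻¹ * u * g, hu'⟩ : Matrix (Fin n) (Fin n) k).trace = (R i ⟨u, hu⟩ : Matrix (Fin n) (Fin n) k).trace
  agree : ∀ (i j : ι) (x : G) (h : x ∈ Hs i) (h' : x ∈ Hs j), R i ⟨x, h⟩ = R j ⟨x, h'⟩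
  large : ∀ U : Subgroup G, U.Normal → IsOpen (U : Set G) → ∃ i, Gen (Hs i) U

/-- **Families of homomorphisms which agree on the intersections.** -/
theorem family_exact (hn : ((n.factorial : ℕ) : k) ≠ 0) {ι : Type*} {Hs : ι → Subgroup G}
    {R : ∀ i, Hs i →* GL (Fin n) k} (F : FamE Hs R) :
    ∃ ρ : G →* GL (Fin n) k, Continuous ρ ∧ Semisimple ρ ∧
      (∀ g, ∃ (i : ι) (x : Hs i) (j : ι) (x' : Hs j), g = x.1 * x'.1 ∧ ρ g = R i x * R j x') ∧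
      ∃ U₀ : Subgroup G, U₀.Normal ∧ IsOpen (U₀ : Set G) ∧
        ∀ i : ι, Gen (Hs i) U₀ → ∀ x : Hs i, ρ x = R i x := by
  obtain ⟨i₁, -⟩ := F.large ⊤ inferInstance isOpen_univ
  obtain ⟨N, U, hNn, hUn, hNo, hUo, hUN, hN1, hU⟩ := exists_NU hn (Hs i₁) (F.opn i₁) (R i₁) (F.cont _) (F.semi _)
  haveI := hNn
  obtain ⟨i₂, hg2⟩ := F.large U hUn hUo
  obtain ⟨ρ, hc, hs, he, ht⟩ := two_exact hn (F.semi i₁) hUN hN1 hU (F.tr i₁) (Hs i₂) (F.opn i₂) (R i₂) (F.cont _)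
    (F.semi _) (fun x h1 h2 => F.agree _ _ x h1 h2) hg2
  obtain ⟨U', hU'⟩ := ProfiniteGrp.exist_openNormalSubgroup_sub_open_nhds_of_one
    ((F.opn i₂).inter hUo) ⟨(Hs i₂).one_mem, U.one_mem⟩
  refine ⟨ρ, hc, hs, fun g => ?_, U'.toSubgroup, U'.isNormal', U'.isOpen', fun i₃ hg3 x => ?_⟩
  · obtain ⟨h, hh, u, hu, rfl⟩ := (hg2.mono le_rfl hUN) g
    refine ⟨i₂, ⟨h, hh⟩, i₁, ⟨u, hN1 hu⟩, rfl, ?_⟩
    rw [map_mul, he h hh, ht u (hN1 hu)]
  have h5 : U'.toSubgroup ≤ Hs i₂ := fun x hx => (hU' hx).1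
  have h6 : U'.toSubgroup ≤ U := fun x hx => (hU' hx).2
  obtain ⟨ρ', hc', hs', he', ht'⟩ := two_exact hn (F.semi i₁) hUN hN1 hU (F.tr i₁) (Hs i₃) (F.opn i₃) (R i₃)
    (F.cont _) (F.semi _) (fun x h1 h2 => F.agree _ _ x h1 h2) (hg3.mono le_rfl h6)
  have key : ∀ g, ρ g = ρ' g := by
    intro g
    obtain ⟨h, hh, u, hu, rfl⟩ := ((hg2.inf hg3 h5 h6).mono le_rfl hUN) g
    rw [map_mul, map_mul, ht u (hN1 hu), ht' u (hN1 hu), he h hh.1, he' h hh.2, F.agree i₂ i₃ h hh.1 hh.2]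
  rw [key, he' x.1 x.2]

end abs

end Pool.Agent.X289.TF
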