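import Mathlib

/-! Patching of two matrix representations: `M₁` of a normal subgroup `N` and `M₂` of a subgroup `H₂` with
`H₂ N = Γ`, which have the same traces on `N ∩ H₂`. -/

set_option autoImplicit false

namespace Pool.Agent.X289.TF

open Matrix Module

variable {Γ : Type*} [Group Γ] {k : Type*} [Field k] {n : ℕ}

/-- the data which can be patched -/
structure Datum (N H : Subgroup Γ) [N.Normal] (M₁ : N →* Matrix (Fin n) (Fin n) k)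
    (M₂ : H →* Matrix (Fin n) (Fin n) k) : Prop where
  tr : ∀ (x : Γ) (h1 : x ∈ N) (h2 : x ∈ H), (M₁ ⟨x, h1⟩).trace = (M₂ ⟨x, h2⟩).trace
  conj : ∀ g ∈ H, ∀ (u : Γ) (hu : u ∈ N) (hu' : g⁻¹ * u * g ∈ N), (M₁ ⟨g⁻¹ * u * g, hu'⟩).trace = (M₁ ⟨u, hu⟩).trace
  span : ∀ u : N, M₁ u ∈ Submodule.span k (Set.range fun x : (N ⊓ H : Subgroup Γ) => M₁ ⟨x.1, x.2.1⟩)
  nd1 : ∀ a ∈ Submodule.span k (Set.range fun x : (N ⊓ H : Subgroup Γ) => M₁ ⟨x.1, x.2.1⟩),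
    (∀ x : (N ⊓ H : Subgroup Γ), (a * M₁ ⟨x.1, x.2.1⟩).trace = 0) → a = 0
  nd2 : ∀ a ∈ Submodule.span k (Set.range fun x : (N ⊓ H : Subgroup Γ) => M₂ ⟨x.1, x.2.2⟩),
    (∀ x : (N ⊓ H : Subgroup Γ), (a * M₂ ⟨x.1, x.2.2⟩).trace = 0) → a = 0
  gen : ∀ g : Γ, ∃ h ∈ H, ∃ u ∈ N, g = h * u

variable {N H : Subgroup Γ} [hN : N.Normal] {M₁ : N →* Matrix (Fin n) (Fin n) k}
  {M₂ : H →* Matrix (Fin n) (Fin n) k}

section

variable (M₁) (M₂)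

/-- first restriction -/
def i1 (N H : Subgroup Γ) : (N ⊓ H : Subgroup Γ) →* N := Subgroup.inclusion inf_le_left

/-- second restriction -/
def i2 (N H : Subgroup Γ) : (N ⊓ H : Subgroup Γ) →* H := Subgroup.inclusion inf_le_right

/-- the algebra homomorphism of `M₁` -/
noncomputable def f1 : MonoidAlgebra k (N ⊓ H : Subgroup Γ) →ₐ[k] Matrix (Fin n) (Fin n) k :=
  MonoidAlgebra.lift k (Matrix (Fin n) (Fin n) k) _ (M₁.comp (i1 N H))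

/-- the algebra homomorphism of `M₂` -/
noncomputable def f2 : MonoidAlgebra k (N ⊓ H : Subgroup Γ) →ₐ[k] Matrix (Fin n) (Fin n) k :=
  MonoidAlgebra.lift k (Matrix (Fin n) (Fin n) k) _ (M₂.comp (i2 N H))

end

theorem f1_of (x : (N ⊓ H : Subgroup Γ)) : f1 (H := H) M₁ (MonoidAlgebra.of k _ x) = M₁ ⟨x.1, x.2.1⟩ := by
  rw [f1, MonoidAlgebra.lift_of]
  rfl

theorem f2_of (x : (N ⊓ H : Subgroup Γ)) : f2 (N := N) M₂ (MonoidAlgebra.of k _ x) = M₂ ⟨x.1, x.2.2⟩ := by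
  rw [f2, MonoidAlgebra.lift_of]
  rfl

theorem mem_span_f1 (x : MonoidAlgebra k (N ⊓ H : Subgroup Γ)) :
    f1 M₁ x ∈ Submodule.span k (Set.range fun x : (N ⊓ H : Subgroup Γ) => M₁ ⟨x.1, x.2.1⟩) := by
  refine MonoidAlgebra.induction_on (motive := fun x => f1 M₁ x ∈ Submodule.span k
    (Set.range fun x : (N ⊓ H : Subgroup Γ) => M₁ ⟨x.1, x.2.1⟩)) x ?_ ?_ ?_
  · intro g
    rw [f1_of]
    exact Submodule.subset_span ⟨g, rfl⟩
  · intro a b ha hb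
    rw [map_add]
    exact Submodule.add_mem _ ha hb
  · intro r a ha
    rw [map_smul]
    exact Submodule.smul_mem _ _ ha

theorem mem_span_f2 (x : MonoidAlgebra k (N ⊓ H : Subgroup Γ)) :
    f2 M₂ x ∈ Submodule.span k (Set.range fun x : (N ⊓ H : Subgroup Γ) => M₂ ⟨x.1, x.2.2⟩) := by
  refine MonoidAlgebra.induction_on (motive := fun x => f2 M₂ x ∈ Submodule.span k
    (Set.range fun x : (N ⊓ H : Subgroup Γ) => M₂ ⟨x.1, x.2.2⟩)) x ?_ ?_ ?_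
  · intro g
    rw [f2_of]
    exact Submodule.subset_span ⟨g, rfl⟩
  · intro a b ha hb
    rw [map_add]
    exact Submodule.add_mem _ ha hb
  · intro r a ha
    rw [map_smul]
    exact Submodule.smul_mem _ _ ha

theorem exists_f1 (D : Datum N H M₁ M₂) (u : N) : ∃ x, f1 (H := H) M₁ x = M₁ u := by
  refine Submodule.span_induction (p := fun a _ => ∃ x, f1 (H := H) M₁ x = a) ?_ ?_ ?_ ?_ (D.span u)
  · rintro _ ⟨x, rfl⟩
    exact ⟨MonoidAlgebra.of k _ x, f1_of x⟩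
  · exact ⟨0, map_zero _⟩
  · rintro a b _ _ ⟨x, rfl⟩ ⟨y, rfl⟩
    exact ⟨x + y, map_add _ _ _⟩
  · rintro c a _ ⟨x, rfl⟩
    exact ⟨c • x, map_smul _ _ _⟩

/-- a linear comparison of the two traces -/
theorem tr_f (X Y : Matrix (Fin n) (Fin n) k)
    (h : ∀ x : (N ⊓ H : Subgroup Γ), (X * M₂ ⟨x.1, x.2.2⟩).trace = (Y * M₁ ⟨x.1, x.2.1⟩).trace)
    (x : MonoidAlgebra k (N ⊓ H : Subgroup Γ)) : (X * f2 M₂ x).trace = (Y * f1 M₁ x).trace := by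
  refine MonoidAlgebra.induction_on (motive := fun x => (X * f2 M₂ x).trace = (Y * f1 M₁ x).trace) x ?_ ?_ ?_
  · intro g
    rw [f1_of, f2_of]
    exact h g
  · intro a b ha hb
    rw [map_add, map_add, mul_add, mul_add, Matrix.trace_add, Matrix.trace_add, ha, hb]
  · intro r a ha
    rw [map_smul, map_smul, mul_smul_comm, mul_smul_comm, Matrix.trace_smul, Matrix.trace_smul, ha]

theorem tr_f' (D : Datum N H M₁ M₂) (x : MonoidAlgebra k (N ⊓ H : Subgroup Γ)) (y : (N ⊓ H : Subgroup Γ)) :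
    (f2 M₂ x * M₂ ⟨y.1, y.2.2⟩).trace = (f1 M₁ x * M₁ ⟨y.1, y.2.1⟩).trace := by
  rw [Matrix.trace_mul_comm, Matrix.trace_mul_comm (f1 M₁ x)]
  refine tr_f _ _ (fun z => ?_) x
  rw [← map_mul, ← map_mul]
  exact (D.tr _ _ _).symm

theorem ker (D : Datum N H M₁ M₂) (x : MonoidAlgebra k (N ⊓ H : Subgroup Γ)) : f1 M₁ x = 0 ↔ f2 M₂ x = 0 := by
  constructor
  · intro h
    refine D.nd2 _ (mem_span_f2 x) fun y => ?_
    rw [tr_f' D, h, zero_mul, Matrix.trace_zero]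
  · intro h
    refine D.nd1 _ (mem_span_f1 x) fun y => ?_
    rw [← tr_f' D, h, zero_mul, Matrix.trace_zero]

/-- the transfer of `M₁` -/
noncomputable def t (D : Datum N H M₁ M₂) (u : N) : Matrix (Fin n) (Fin n) k := f2 M₂ (exists_f1 D u).choose

theorem t_eq (D : Datum N H M₁ M₂) {u : N} {x : MonoidAlgebra k (N ⊓ H : Subgroup Γ)} (hx : f1 M₁ x = M₁ u) :
    t D u = f2 M₂ x := by
  rw [t, ← sub_eq_zero, ← map_sub]
  rw [← ker D, map_sub, hx, (exists_f1 D u).choose_spec, sub_self]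

theorem t_mul (D : Datum N H M₁ M₂) (u v : N) : t D (u * v) = t D u * t D v := by
  obtain ⟨x, hx⟩ := exists_f1 D u
  obtain ⟨y, hy⟩ := exists_f1 D v
  rw [t_eq D hx, t_eq D hy, ← map_mul]
  exact t_eq D (by rw [map_mul, hx, hy, map_mul])

theorem t_of (D : Datum N H M₁ M₂) (x : Γ) (h1 : x ∈ N) (h2 : x ∈ H) : t D ⟨x, h1⟩ = M₂ ⟨x, h2⟩ := by
  rw [t_eq D (f1_of (H := H) ⟨x, h1, h2⟩), f2_of]

theorem t_eq_one (D : Datum N H M₁ M₂) (u : N) (hu : M₁ u = 1) : t D u = 1 := by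
  rw [t_eq D (x := 1) (by rw [map_one, hu]), map_one]

theorem t_mem (D : Datum N H M₁ M₂) (u : N) :
    t D u ∈ Submodule.span k (Set.range fun x : (N ⊓ H : Subgroup Γ) => M₂ ⟨x.1, x.2.2⟩) := mem_span_f2 _

theorem t_trace (D : Datum N H M₁ M₂) (X Y : Matrix (Fin n) (Fin n) k)
    (h : ∀ x : (N ⊓ H : Subgroup Γ), (X * M₂ ⟨x.1, x.2.2⟩).trace = (Y * M₁ ⟨x.1, x.2.1⟩).trace) (u : N) :
    (X * t D u).trace = (Y * M₁ u).trace := by
  obtain ⟨x, hx⟩ := exists_f1 D u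
  rw [t_eq D hx, ← hx]
  exact tr_f X Y h x

/-- conjugation by an element of `H` on `N ∩ H` -/
def cj (g : Γ) (hg : g ∈ H) : (N ⊓ H : Subgroup Γ) →* (N ⊓ H : Subgroup Γ) where
  toFun x := ⟨g⁻¹ * x.1 * g, ⟨by
    have := hN.conj_mem x.1 x.2.1 g⁻¹
    rwa [inv_inv] at this, H.mul_mem (H.mul_mem (H.inv_mem hg) x.2.2) hg⟩⟩
  map_one' := by
    apply Subtype.ext
    show g⁻¹ * 1 * g = 1
    group
  map_mul' x y := by
    apply Subtype.ext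
    show g⁻¹ * (x.1 * y.1) * g = g⁻¹ * x.1 * g * (g⁻¹ * y.1 * g)
    group

theorem t_conj (D : Datum N H M₁ M₂) (g : Γ) (hg : g ∈ H) (u : Γ) (hu : u ∈ N) (hu' : g⁻¹ * u * g ∈ N) :
    M₂ ⟨g, hg⟩ * t D ⟨g⁻¹ * u * g, hu'⟩ = t D ⟨u, hu⟩ * M₂ ⟨g, hg⟩ := by
  obtain ⟨x, hx⟩ := exists_f1 D ⟨u, hu⟩
  let c : MonoidAlgebra k (N ⊓ H : Subgroup Γ) →ₐ[k] MonoidAlgebra k (N ⊓ H : Subgroup Γ) :=
    MonoidAlgebra.lift k _ _ ((MonoidAlgebra.of k _).comp (cj (N := N) g hg))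
  have hc : ∀ y, c (MonoidAlgebra.of k _ y) = MonoidAlgebra.of k _ (cj (N := N) g hg y) := by
    intro y
    show (MonoidAlgebra.lift k _ _ _) _ = _
    rw [MonoidAlgebra.lift_of]
    rfl
  have h2 : ∀ y, M₂ ⟨g, hg⟩ * f2 M₂ (c y) = f2 M₂ y * M₂ ⟨g, hg⟩ := by
    intro y
    refine MonoidAlgebra.induction_on (motive := fun y => M₂ ⟨g, hg⟩ * f2 M₂ (c y) = f2 M₂ y * M₂ ⟨g, hg⟩) y ?_ ?_ ?_
    · intro z
      rw [hc, f2_of, f2_of, ← map_mul, ← map_mul]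
      congr 1
      apply Subtype.ext
      show g * (g⁻¹ * z.1 * g) = z.1 * g
      group
    · intro a b ha hb
      rw [map_add, map_add, map_add, mul_add, add_mul, ha, hb]
    · intro r a ha
      rw [map_smul, map_smul, map_smul, mul_smul_comm, smul_mul_assoc, ha]
  have h1 : f1 M₁ (c x) = M₁ ⟨g⁻¹ * u * g, hu'⟩ := by
    rw [← sub_eq_zero]
    refine D.nd1 _ (Submodule.sub_mem _ (mem_span_f1 _) (D.span _)) fun y => ?_
    rw [sub_mul, Matrix.trace_sub, sub_eq_zero]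
    have hyN : g * y.1 * g⁻¹ ∈ N := hN.conj_mem y.1 y.2.1 g
    -- trace of `f1 (c x) * M₁ y`
    have e1 : ∀ z : MonoidAlgebra k (N ⊓ H : Subgroup Γ), (f1 M₁ (c z) * M₁ ⟨y.1, y.2.1⟩).trace =
        (f1 M₁ z * M₁ ⟨g * y.1 * g⁻¹, hyN⟩).trace := by
      intro z
      refine MonoidAlgebra.induction_on (motive := fun z => (f1 M₁ (c z) * M₁ ⟨y.1, y.2.1⟩).trace =
        (f1 M₁ z * M₁ ⟨g * y.1 * g⁻¹, hyN⟩).trace) z ?_ ?_ ?_
      · intro w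
        rw [hc, f1_of, f1_of, ← map_mul, ← map_mul]
        have h3 := D.conj g hg (w.1 * (g * y.1 * g⁻¹)) (N.mul_mem w.2.1 hyN) (by
          have := hN.conj_mem _ (N.mul_mem w.2.1 hyN) g⁻¹
          rwa [inv_inv] at this)
        rw [show (⟨w.1, w.2.1⟩ : N) * ⟨g * y.1 * g⁻¹, hyN⟩ = ⟨w.1 * (g * y.1 * g⁻¹), N.mul_mem w.2.1 hyN⟩ from rfl,
          ← h3]
        congr 2
        apply Subtype.ext
        show g⁻¹ * w.1 * g * y.1 = g⁻¹ * (w.1 * (g * y.1 * g⁻¹)) * g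
        group
      · intro a b ha hb
        rw [map_add, map_add, map_add, add_mul, add_mul, Matrix.trace_add, Matrix.trace_add, ha, hb]
      · intro r a ha
        rw [map_smul, map_smul, map_smul, smul_mul_assoc, smul_mul_assoc, Matrix.trace_smul, Matrix.trace_smul, ha]
    rw [e1, hx, ← map_mul, ← map_mul]
    have h3 := D.conj g hg (u * (g * y.1 * g⁻¹)) (N.mul_mem hu hyN) (by
      have := hN.conj_mem _ (N.mul_mem hu hyN) g⁻¹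
      rwa [inv_inv] at this)
    rw [show (⟨u, hu⟩ : N) * ⟨g * y.1 * g⁻¹, hyN⟩ = ⟨u * (g * y.1 * g⁻¹), N.mul_mem hu hyN⟩ from rfl, ← h3]
    congr 2
    apply Subtype.ext
    show g⁻¹ * (u * (g * y.1 * g⁻¹)) * g = g⁻¹ * u * g * y.1
    group
  rw [t_eq D h1, t_eq D hx]
  exact h2 x

theorem wd (D : Datum N H M₁ M₂) {h h' u u' : Γ} (hh : h ∈ H) (hh' : h' ∈ H) (hu : u ∈ N) (hu' : u' ∈ N)
    (e : h * u = h' * u') : M₂ ⟨h, hh⟩ * t D ⟨u, hu⟩ = M₂ ⟨h', hh'⟩ * t D ⟨u', hu'⟩ := by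
  have e1 : h'⁻¹ * h = u' * u⁻¹ := by
    rw [inv_mul_eq_iff_eq_mul, ← mul_assoc, eq_mul_inv_iff_mul_eq]
    exact e
  have h1 : h'⁻¹ * h ∈ H := H.mul_mem (H.inv_mem hh') hh
  have h2 : h'⁻¹ * h ∈ N := by rw [e1]; exact N.mul_mem hu' (N.inv_mem hu)
  have h3 : (⟨h, hh⟩ : H) = ⟨h', hh'⟩ * ⟨h'⁻¹ * h, h1⟩ := by
    apply Subtype.ext
    show h = h' * (h'⁻¹ * h)
    group
  have h4 : (⟨u', hu'⟩ : N) = ⟨h'⁻¹ * h, h2⟩ * ⟨u, hu⟩ := by
    apply Subtype.ext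
    show u' = h'⁻¹ * h * u
    rw [e1]
    group
  rw [h3, map_mul, h4, t_mul, t_of D _ h2 h1, mul_assoc]

/-- the patched representation -/
theorem exists_patch (D : Datum N H M₁ M₂) : ∃ R : Γ →* Matrix (Fin n) (Fin n) k,
    ∀ (h : Γ) (hh : h ∈ H) (u : Γ) (hu : u ∈ N), R (h * u) = M₂ ⟨h, hh⟩ * t D ⟨u, hu⟩ := by
  choose a ha b hb hab using D.gen
  have key : ∀ (h : Γ) (hh : h ∈ H) (u : Γ) (hu : u ∈ N), M₂ ⟨a (h * u), ha _⟩ * t D ⟨b (h * u), hb _⟩ =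
      M₂ ⟨h, hh⟩ * t D ⟨u, hu⟩ := fun h hh u hu => wd D _ _ _ _ (hab (h * u)).symm
  refine ⟨{ toFun := fun g => M₂ ⟨a g, ha g⟩ * t D ⟨b g, hb g⟩
            map_one' := ?_
            map_mul' := ?_ }, key⟩
  · have h1 := key 1 H.one_mem 1 N.one_mem
    rw [mul_one] at h1
    rw [h1, t_eq_one D _ (show M₁ ⟨1, N.one_mem⟩ = 1 from map_one M₁)]
    show M₂ 1 * 1 = 1
    rw [map_one, mul_one]
  · intro x y
    have hc : (a y)⁻¹ * b x * a y ∈ N := by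
      have := hN.conj_mem (b x) (hb x) (a y)⁻¹
      rwa [inv_inv] at this
    have e : x * y = (a x * a y) * ((a y)⁻¹ * b x * a y * b y) := by
      conv_lhs => rw [hab x, hab y]
      group
    have h1 := key (a x * a y) (H.mul_mem (ha x) (ha y)) ((a y)⁻¹ * b x * a y * b y) (N.mul_mem hc (hb y))
    rw [← e] at h1
    rw [h1]
    have h2 : (⟨a x * a y, H.mul_mem (ha x) (ha y)⟩ : H) = ⟨a x, ha x⟩ * ⟨a y, ha y⟩ := rfl
    have h3 : (⟨(a y)⁻¹ * b x * a y * b y, N.mul_mem hc (hb y)⟩ : N) =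
        ⟨(a y)⁻¹ * b x * a y, hc⟩ * ⟨b y, hb y⟩ := rfl
    rw [h2, h3, map_mul, t_mul]
    have h4 := t_conj D (a y) (ha y) (b x) (hb x) hc
    calc M₂ ⟨a x, ha x⟩ * M₂ ⟨a y, ha y⟩ * (t D ⟨(a y)⁻¹ * b x * a y, hc⟩ * t D ⟨b y, hb y⟩)
        = M₂ ⟨a x, ha x⟩ * (M₂ ⟨a y, ha y⟩ * t D ⟨(a y)⁻¹ * b x * a y, hc⟩) * t D ⟨b y, hb y⟩ := by
          noncomm_ring
      _ = M₂ ⟨a x, ha x⟩ * t D ⟨b x, hb x⟩ * (M₂ ⟨a y, ha y⟩ * t D ⟨b y, hb y⟩) := by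
          rw [h4]
          noncomm_ring

end Pool.Agent.X289.TF
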