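import Pool.Agent.X289.TF.Clifford
import Pool.Agent.X289.TF.Core

/-! Nondegeneracy of the trace form, comparison of representations, and openness of spanning. -/

set_option autoImplicit false
set_option linter.all false

namespace Pool.Agent.X289.TF

open Matrix Module
open Pool.Agent.X320.DS

section

variable {Γ : Type*} [Group Γ] {k : Type*} [Field k] {n : ℕ}

/-- the space of matrices spanned by the elements of the image indexed by `X` -/
def sp (ρ : Γ →* GL (Fin n) k) (X : Set Γ) : Submodule k (Matrix (Fin n) (Fin n) k) :=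
  Submodule.span k ((fun g => (ρ g : Matrix (Fin n) (Fin n) k)) '' X)

theorem sp_mono (ρ : Γ →* GL (Fin n) k) {X Y : Set Γ} (h : X ⊆ Y) : sp ρ X ≤ sp ρ Y :=
  Submodule.span_mono (Set.image_mono h)

theorem mem_sp (ρ : Γ →* GL (Fin n) k) {X : Set Γ} {g : Γ} (h : g ∈ X) : (ρ g : Matrix (Fin n) (Fin n) k) ∈ sp ρ X :=
  Submodule.subset_span ⟨g, h, rfl⟩

theorem toLin_mem (ρ : Γ →* GL (Fin n) k) {a : Matrix (Fin n) (Fin n) k} (ha : a ∈ sp ρ Set.univ) :
    Matrix.toLin' a ∈ alg ρ := by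
  refine Submodule.span_induction (p := fun a _ => Matrix.toLin' a ∈ alg ρ) ?_ ?_ ?_ ?_ ha
  · rintro _ ⟨g, -, rfl⟩
    exact Algebra.subset_adjoin ⟨g, rfl⟩
  · rw [map_zero]; exact (alg ρ).zero_mem
  · intro a b _ _ h1 h2
    rw [map_add]
    exact (alg ρ).add_mem h1 h2
  · intro c a _ h
    rw [map_smul]
    exact (alg ρ).smul_mem h c

/-- the trace form is nondegenerate -/
theorem nondeg {ρ : Γ →* GL (Fin n) k} (hρ : Semisimple ρ) (hn : ((n.factorial : ℕ) : k) ≠ 0)
    {a : Matrix (Fin n) (Fin n) k} (ha : a ∈ sp ρ Set.univ)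
    (h : ∀ g, (a * (ρ g : Matrix (Fin n) (Fin n) k)).trace = 0) : a = 0 := by
  have h1 := trace_nondeg hρ hn (toLin_mem ρ ha) ?_
  · exact (Matrix.toLin' (R := k) (m := Fin n) (n := Fin n)).injective (by rw [h1, map_zero])
  · intro b hb
    have hb' : b ∈ Submodule.span k (Set.range (toEnd ρ)) := by
      rw [← alg_eq_span]
      exact hb
    refine Submodule.span_induction (p := fun b _ =>
      LinearMap.trace k (Fin n → k) (b * Matrix.toLin' a) = 0) ?_ ?_ ?_ ?_ hb'
    · rintro _ ⟨g, rfl⟩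
      have e : toEnd ρ g * Matrix.toLin' a = Matrix.toLin' ((ρ g : Matrix (Fin n) (Fin n) k) * a) :=
        (Matrix.toLin'_mul _ _).symm
      rw [e, Matrix.trace_toLin'_eq, Matrix.trace_mul_comm]
      exact h g
    · simp
    · intro x y _ _ hx hy
      rw [add_mul, map_add, hx, hy, add_zero]
    · intro c x _ hx
      rw [smul_mul_assoc, map_smul, hx, smul_zero]

/-- **Transfer.** For semisimple representations with the same traces, linear relations between group elements
are the same. -/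
theorem transfer {ρ ρ' : Γ →* GL (Fin n) k} (hρ' : Semisimple ρ') (hn : ((n.factorial : ℕ) : k) ≠ 0)
    (htr : ∀ g, (ρ g : Matrix (Fin n) (Fin n) k).trace = (ρ' g : Matrix (Fin n) (Fin n) k).trace)
    {ι : Type*} (s : Finset ι) (x : ι → Γ) (c : ι → k)
    (h : ∑ i ∈ s, c i • (ρ (x i) : Matrix (Fin n) (Fin n) k) = 0) :
    ∑ i ∈ s, c i • (ρ' (x i) : Matrix (Fin n) (Fin n) k) = 0 := by
  refine nondeg hρ' hn (Submodule.sum_mem _ fun i _ => Submodule.smul_mem _ _ (mem_sp _ (Set.mem_univ _))) fun g => ?_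
  have h1 : (∑ i ∈ s, c i • (ρ' (x i) : Matrix (Fin n) (Fin n) k)) * (ρ' g : Matrix (Fin n) (Fin n) k) =
      ∑ i ∈ s, c i • (ρ' (x i * g) : Matrix (Fin n) (Fin n) k) := by
    rw [Finset.sum_mul]
    refine Finset.sum_congr rfl fun i _ => ?_
    rw [smul_mul_assoc, map_mul, Units.val_mul]
  have h2 : (∑ i ∈ s, c i • (ρ (x i) : Matrix (Fin n) (Fin n) k)) * (ρ g : Matrix (Fin n) (Fin n) k) =
      ∑ i ∈ s, c i • (ρ (x i * g) : Matrix (Fin n) (Fin n) k) := by
    rw [Finset.sum_mul]
    refine Finset.sum_congr rfl fun i _ => ?_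
    rw [smul_mul_assoc, map_mul, Units.val_mul]
  rw [h1, Matrix.trace_sum]
  rw [h, zero_mul] at h2
  have h3 := congrArg Matrix.trace h2
  rw [Matrix.trace_zero, Matrix.trace_sum] at h3
  rw [h3]
  refine Finset.sum_congr rfl fun i _ => ?_
  rw [Matrix.trace_smul, Matrix.trace_smul, htr]

/-- elements of `sp` are finite combinations -/
theorem exists_comb {ρ : Γ →* GL (Fin n) k} {X : Set Γ} {a : Matrix (Fin n) (Fin n) k} (ha : a ∈ sp ρ X) :
    ∃ (m : ℕ) (c : Fin m → k) (x : Fin m → Γ), (∀ i, x i ∈ X) ∧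
      a = ∑ i, c i • (ρ (x i) : Matrix (Fin n) (Fin n) k) := by
  obtain ⟨m, c, g, hg⟩ := Submodule.mem_span_set'.1 ha
  choose x hx hxg using fun i => (g i).2
  refine ⟨m, c, x, hx, ?_⟩
  rw [← hg]
  exact Finset.sum_congr rfl fun i _ => by rw [← hxg i]

/-- a representation of `N` transported along equality of traces: spans -/
theorem span_transfer {ρ ρ' : Γ →* GL (Fin n) k} (hρ' : Semisimple ρ') (hn : ((n.factorial : ℕ) : k) ≠ 0)
    (htr : ∀ g, (ρ g : Matrix (Fin n) (Fin n) k).trace = (ρ' g : Matrix (Fin n) (Fin n) k).trace)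
    {X : Set Γ} (h : ∀ g, (ρ g : Matrix (Fin n) (Fin n) k) ∈ sp ρ X) (g : Γ) :
    (ρ' g : Matrix (Fin n) (Fin n) k) ∈ sp ρ' X := by
  obtain ⟨m, c, x, hx, e⟩ := exists_comb (h g)
  have h1 := transfer (ρ := ρ) hρ' hn htr (Finset.univ : Finset (Option (Fin m)))
    (fun o => o.elim g x) (fun o => o.elim (-1) c) (by
      rw [Fintype.sum_option]
      show (-1 : k) • (ρ g : Matrix (Fin n) (Fin n) k) + ∑ i, c i • (ρ (x i) : Matrix (Fin n) (Fin n) k) = 0
      rw [← e, neg_one_smul, neg_add_cancel])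
  rw [Fintype.sum_option] at h1
  change (-1 : k) • (ρ' g : Matrix (Fin n) (Fin n) k) + ∑ i, c i • (ρ' (x i) : Matrix (Fin n) (Fin n) k) = 0 at h1
  have h2 : (ρ' g : Matrix (Fin n) (Fin n) k) = ∑ i, c i • (ρ' (x i) : Matrix (Fin n) (Fin n) k) := by
    rw [neg_one_smul, neg_add_eq_zero] at h1
    exact h1
  rw [h2]
  exact Submodule.sum_mem _ fun i _ => Submodule.smul_mem _ _ (mem_sp _ (hx i))

/-- **Comparison.** Two semisimple representations of `Γ` with the same traces on a normal subgroup `N` and on a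
subgroup `H` with `H N = Γ` have the same traces, if `ρ N` is spanned by `ρ (N ∩ H)`. -/
theorem compare {ρ ρ' : Γ →* GL (Fin n) k} (N H : Subgroup Γ) [N.Normal] (hρ' : Semisimple ρ')
    (hn : ((n.factorial : ℕ) : k) ≠ 0)
    (hN : ∀ g ∈ N, (ρ g : Matrix (Fin n) (Fin n) k).trace = (ρ' g : Matrix (Fin n) (Fin n) k).trace)
    (hH : ∀ g ∈ H, (ρ g : Matrix (Fin n) (Fin n) k).trace = (ρ' g : Matrix (Fin n) (Fin n) k).trace)
    (hsp : ∀ u ∈ N, (ρ u : Matrix (Fin n) (Fin n) k) ∈ sp ρ (N ∩ H : Set Γ))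
    (hgen : ∀ g : Γ, ∃ h ∈ H, ∃ u ∈ N, g = h * u) (g : Γ) :
    (ρ g : Matrix (Fin n) (Fin n) k).trace = (ρ' g : Matrix (Fin n) (Fin n) k).trace := by
  obtain ⟨h, hh, u, hu, rfl⟩ := hgen g
  obtain ⟨m, c, x, hx, e⟩ := exists_comb (hsp u hu)
  have h1 := transfer (ρ := ρ.comp N.subtype) (ρ' := ρ'.comp N.subtype) (clifford N hρ') hn
    (fun g => hN g.1 g.2) (Finset.univ : Finset (Option (Fin m)))
    (fun o => o.elim ⟨u, hu⟩ (fun i => ⟨x i, (hx i).1⟩)) (fun o => o.elim (-1) c) (by
      rw [Fintype.sum_option]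
      show (-1 : k) • (ρ u : Matrix (Fin n) (Fin n) k) + ∑ i, c i • (ρ (x i) : Matrix (Fin n) (Fin n) k) = 0
      rw [← e, neg_one_smul, neg_add_cancel])
  rw [Fintype.sum_option] at h1
  change (-1 : k) • (ρ' u : Matrix (Fin n) (Fin n) k) + ∑ i, c i • (ρ' (x i) : Matrix (Fin n) (Fin n) k) = 0 at h1
  rw [neg_one_smul, neg_add_eq_zero] at h1
  rw [map_mul, map_mul, Units.val_mul, Units.val_mul, e, h1, Finset.mul_sum, Finset.mul_sum, Matrix.trace_sum,
    Matrix.trace_sum]
  refine Finset.sum_congr rfl fun i _ => ?_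
  rw [mul_smul_comm, mul_smul_comm, Matrix.trace_smul, Matrix.trace_smul, ← Units.val_mul, ← Units.val_mul,
    ← map_mul, ← map_mul, hH _ (H.mul_mem hh (hx i).2)]

end

section top

variable {G : Type*} [Group G] [TopologicalSpace G] [IsTopologicalGroup G] {k : Type*} [Field k]
  [TopologicalSpace k] [IsTopologicalRing k] [T2Space k] {n : ℕ}

theorem basis_gp {Γ : Type*} [Group Γ] {k : Type*} [Field k] {n : ℕ} (ρ : Γ →* GL (Fin n) k) :
    ∃ (r : ℕ) (x : Fin r → Γ), LinearIndependent k (fun i => (ρ (x i) : Matrix (Fin n) (Fin n) k)) ∧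
      Submodule.span k (Set.range fun i => (ρ (x i) : Matrix (Fin n) (Fin n) k)) = sp ρ Set.univ := by
  obtain ⟨f, hf1, hf2, hf3⟩ := Submodule.exists_fun_fin_finrank_span_eq k
    ((fun g => (ρ g : Matrix (Fin n) (Fin n) k)) '' Set.univ)
  choose x _ hx using hf1
  have e : (fun i => (ρ (x i) : Matrix (Fin n) (Fin n) k)) = f := funext hx
  exact ⟨_, x, e ▸ hf3, e ▸ hf2⟩

/-- **Spanning is an open condition.** There is a neighbourhood `V` of the identity such that `ρ` is spanned
by `ρ H` whenever the subset `H` meets all `g V`. -/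
theorem exists_nhds (ρ : G →* GL (Fin n) k) (hc : Continuous ρ) (hρ : Semisimple ρ)
    (hn : ((n.factorial : ℕ) : k) ≠ 0) : ∃ V ∈ nhds (1 : G), ∀ H : Set G,
      (∀ g : G, ∃ v ∈ V, g * v ∈ H) → ∀ g, (ρ g : Matrix (Fin n) (Fin n) k) ∈ sp ρ H := by
  classical
  obtain ⟨r, x, hf3, hf2⟩ := basis_gp ρ
  -- the Gram determinant
  let F : (Fin r → G) → k := fun v => (Matrix.of fun i j => (ρ (x i * v i * x j) : Matrix (Fin n) (Fin n) k).trace).det
  have hFc : Continuous F := by
    refine Continuous.matrix_det ?_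
    refine continuous_matrix fun i j => ?_
    show Continuous fun v : Fin r → G => (ρ (x i * v i * x j) : Matrix (Fin n) (Fin n) k).trace
    refine Continuous.matrix_trace ?_
    refine Units.continuous_val.comp (hc.comp ?_)
    exact (continuous_const.mul (continuous_apply i)).mul continuous_const
  have hF1 : F 1 ≠ 0 := by
    intro h0
    obtain ⟨c, hc0, hc⟩ := Matrix.exists_vecMul_eq_zero_iff.2 h0
    have ha : ∑ i, c i • (ρ (x i) : Matrix (Fin n) (Fin n) k) = 0 := by
      refine nondeg hρ hn (Submodule.sum_mem _ fun i _ => Submodule.smul_mem _ _ ?_) fun g => ?_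
      · exact mem_sp _ (Set.mem_univ _)
      · have hg : (ρ g : Matrix (Fin n) (Fin n) k) ∈ 
            Submodule.span k (Set.range fun i => (ρ (x i) : Matrix (Fin n) (Fin n) k)) := by
          rw [hf2]
          exact mem_sp _ (Set.mem_univ _)
        refine Submodule.span_induction 
          (p := fun b _ => ((∑ i, c i • (ρ (x i) : Matrix (Fin n) (Fin n) k)) * b).trace = 0) ?_ ?_ ?_ ?_ hg
        · rintro _ ⟨j, rfl⟩
          have h1 := congrFun hc j
          rw [Matrix.vecMul, dotProduct] at h1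
          rw [Finset.sum_mul, Matrix.trace_sum]
          refine Eq.trans (Finset.sum_congr rfl fun i _ => ?_) h1
          rw [smul_mul_assoc, Matrix.trace_smul, smul_eq_mul, ← Units.val_mul, ← map_mul]
          show _ = c i * (ρ (x i * (1 : Fin r → G) i * x j) : Matrix (Fin n) (Fin n) k).trace
          rw [Pi.one_apply, mul_one]
        · rw [mul_zero, Matrix.trace_zero]
        · intro a b _ _ ha hb
          rw [mul_add, Matrix.trace_add, ha, hb, add_zero]
        · intro d a _ ha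
          rw [mul_smul_comm, Matrix.trace_smul, ha, smul_zero]
    exact hc0 (funext fun i => (Fintype.linearIndependent_iff.1 hf3 c ha) i)
  have hopen : IsOpen {v | F v ≠ 0} := isOpen_ne_fun hFc continuous_const
  have hmem : {v | F v ≠ 0} ∈ nhds (1 : Fin r → G) := hopen.mem_nhds hF1
  rw [nhds_pi, Filter.mem_pi'] at hmem
  obtain ⟨I, t, ht, hIt⟩ := hmem
  refine ⟨⋂ i ∈ I, t i, ?_, fun H hH g => ?_⟩
  · exact (Filter.biInter_finset_mem I).2 fun i _ => ht i
  · choose v hv hvH using fun i => hH (x i)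
    have hv' : F v ≠ 0 := by
      refine hIt ?_
      intro i hi
      exact Set.mem_iInter₂.1 (hv i) i hi
    have hli : LinearIndependent k fun i => (ρ (x i * v i) : Matrix (Fin n) (Fin n) k) := by
      rw [Fintype.linearIndependent_iff]
      intro c hc0
      have h1 : c ᵥ* (Matrix.of fun i j => (ρ (x i * v i * x j) : Matrix (Fin n) (Fin n) k).trace) = 0 := by
        funext j
        rw [Matrix.vecMul, dotProduct, Pi.zero_apply]
        have h2 := congrArg (fun a => (a * (ρ (x j) : Matrix (Fin n) (Fin n) k)).trace) hc0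
        simp only [zero_mul, Matrix.trace_zero] at h2
        rw [Finset.sum_mul, Matrix.trace_sum] at h2
        refine Eq.trans (Finset.sum_congr rfl fun i _ => ?_) h2
        rw [smul_mul_assoc, Matrix.trace_smul, smul_eq_mul, Matrix.of_apply, map_mul, Units.val_mul]
      exact congrFun (Matrix.eq_zero_of_vecMul_eq_zero hv' h1)
    have hle : Submodule.span k (Set.range fun i => (ρ (x i * v i) : Matrix (Fin n) (Fin n) k)) ≤ sp ρ Set.univ := by
      rw [Submodule.span_le]
      rintro _ ⟨i, rfl⟩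
      exact mem_sp _ (Set.mem_univ _)
    have heq := Submodule.eq_of_le_of_finrank_eq hle (by
      rw [← hf2, finrank_span_eq_card hli, finrank_span_eq_card hf3])
    have hg : (ρ g : Matrix (Fin n) (Fin n) k) ∈ sp ρ Set.univ := mem_sp _ (Set.mem_univ _)
    rw [← heq] at hg
    refine (Submodule.span_mono ?_ : _ ≤ sp ρ H) hg
    rintro _ ⟨i, rfl⟩
    exact ⟨_, hvH i, rfl⟩

end top

end Pool.Agent.X289.TF
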