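import Pool.Agent.X289.TF.Patch

/-! The patching lemma for profinite groups: two subgroups, and families. -/

set_option autoImplicit false
set_option linter.all false

namespace Pool.Agent.X289.TF

open Matrix Module
open Pool.Agent.X320.DS

section

variable {G : Type*} [Group G] [TopologicalSpace G] [IsTopologicalGroup G] [CompactSpace G]
  [TotallyDisconnectedSpace G] {k : Type*} [Field k] [TopologicalSpace k] [IsTopologicalRing k] [T2Space k] {n : ℕ}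

/-- `H U = G` -/
def Gen (H U : Subgroup G) : Prop := ∀ g : G, ∃ h ∈ H, ∃ u ∈ U, g = h * u

theorem Gen.mono {H H' U U' : Subgroup G} (h : Gen H U) (hH : H ≤ H') (hU : U ≤ U') : Gen H' U' := by
  intro g
  obtain ⟨a, ha, u, hu, e⟩ := h g
  exact ⟨a, hH ha, u, hU hu, e⟩

theorem Gen.inf {H H' U U' : Subgroup G} (h : Gen H U) (h' : Gen H' U') (h1 : U' ≤ H) (h2 : U' ≤ U) :
    Gen (H ⊓ H') U := by
  intro g
  obtain ⟨a, ha, u, hu, rfl⟩ := h g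
  obtain ⟨b, hb, w, hw, rfl⟩ := h' a
  refine ⟨b, ⟨?_, hb⟩, w * u, U.mul_mem (h2 hw) hu, by group⟩
  have := H.mul_mem ha (H.inv_mem (h1 hw))
  rwa [mul_inv_cancel_right] at this

/-- for an open subgroup with a representation there are open normal subgroups `U ≤ N` such that
`ρ₁ N` is spanned by `ρ₁ (N ∩ H)` for every subgroup `H` with `H U = G` -/
theorem exists_NU (hn : ((n.factorial : ℕ) : k) ≠ 0) (H₁ : Subgroup G) (hH₁ : IsOpen (H₁ : Set G))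
    (ρ₁ : H₁ →* GL (Fin n) k) (hc : Continuous ρ₁) (hs : Semisimple ρ₁) :
    ∃ N U : Subgroup G, N.Normal ∧ U.Normal ∧ IsOpen (N : Set G) ∧ IsOpen (U : Set G) ∧ U ≤ N ∧
      ∃ hN1 : N ≤ H₁, ∀ H : Subgroup G, Gen H U → ∀ (u : G) (hu : u ∈ N),
        ((ρ₁.comp (Subgroup.inclusion hN1)) ⟨u, hu⟩ : Matrix (Fin n) (Fin n) k) ∈
          sp (ρ₁.comp (Subgroup.inclusion hN1)) {x | x.1 ∈ H} := by
  obtain ⟨N, hN⟩ := ProfiniteGrp.exist_openNormalSubgroup_sub_open_nhds_of_one hH₁ H₁.one_mem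
  haveI := N.isNormal'
  have hNo : IsOpen (N.toSubgroup : Set G) := N.isOpen'
  have hN1 : N.toSubgroup ≤ H₁ := hN
  have hcc : Continuous (ρ₁.comp (Subgroup.inclusion hN1)) := by
    refine hc.comp ?_
    exact Continuous.subtype_mk continuous_subtype_val _
  obtain ⟨V, hV, hVs⟩ := exists_nhds (ρ₁.comp (Subgroup.inclusion hN1)) hcc (clifford_le hN1 hs) hn
  have hV' : Subtype.val '' V ∈ nhds (1 : G) := hNo.isOpenMap_subtype_val.image_mem_nhds hV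
  obtain ⟨W, hWV, hWo, hW1⟩ := mem_nhds_iff.1 hV'
  obtain ⟨U, hU⟩ := ProfiniteGrp.exist_openNormalSubgroup_sub_open_nhds_of_one hWo hW1
  refine ⟨N.toSubgroup, U.toSubgroup, N.isNormal', U.isNormal', hNo, U.isOpen', ?_, hN1, ?_⟩
  · intro u hu
    obtain ⟨x, -, hx⟩ := hWV (hU hu)
    rw [← hx]
    exact x.2
  · intro H hH u hu
    refine hVs {x | x.1 ∈ H} (fun g => ?_) ⟨u, hu⟩
    obtain ⟨h, hh, w, hw, e⟩ := hH g.1
    obtain ⟨x, hxV, hx⟩ := hWV (hU (U.toSubgroup.inv_mem hw))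
    refine ⟨x, hxV, ?_⟩
    show g.1 * x.1 ∈ H
    rw [hx, e, mul_inv_cancel_right]
    exact hh

variable {H₁ : Subgroup G} {ρ₁ : H₁ →* GL (Fin n) k} {N U : Subgroup G}

/-- **Patching for two open subgroups.** -/
theorem two (hn : ((n.factorial : ℕ) : k) ≠ 0) (hs₁ : Semisimple ρ₁) [N.Normal] (hUN : U ≤ N) (hN1 : N ≤ H₁)
    (hU : ∀ H : Subgroup G, Gen H U → ∀ (u : G) (hu : u ∈ N),
        ((ρ₁.comp (Subgroup.inclusion hN1)) ⟨u, hu⟩ : Matrix (Fin n) (Fin n) k) ∈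
          sp (ρ₁.comp (Subgroup.inclusion hN1)) {x | x.1 ∈ H})
    (hconj : ∀ (g u : G) (hu : u ∈ H₁) (hu' : g⁻¹ * u * g ∈ H₁),
      (ρ₁ ⟨g⁻¹ * u * g, hu'⟩ : Matrix (Fin n) (Fin n) k).trace =
      (ρ₁ ⟨u, hu⟩ : Matrix (Fin n) (Fin n) k).trace)
    (H₂ : Subgroup G) (hH₂ : IsOpen (H₂ : Set G)) (ρ₂ : H₂ →* GL (Fin n) k) (hc₂ : Continuous ρ₂)
    (hs₂ : Semisimple ρ₂)
    (htr : ∀ (x : G) (h1 : x ∈ H₁) (h2 : x ∈ H₂), (ρ₁ ⟨x, h1⟩ : Matrix (Fin n) (Fin n) k).trace =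
      (ρ₂ ⟨x, h2⟩ : Matrix (Fin n) (Fin n) k).trace) (hgen : Gen H₂ U) :
    ∃ ρ : G →* GL (Fin n) k, Continuous ρ ∧ Semisimple ρ ∧ (∀ (h : G) (hh : h ∈ H₂), ρ h = ρ₂ ⟨h, hh⟩) ∧
      (∀ (h : G) (hh : h ∈ H₁), (ρ h : Matrix (Fin n) (Fin n) k).trace =
        (ρ₁ ⟨h, hh⟩ : Matrix (Fin n) (Fin n) k).trace) ∧
      ∀ (u : G) (hu : u ∈ N), ρ₁ ⟨u, hN1 hu⟩ = 1 → ρ u = 1 := by
  have hsp : ∀ (u : G) (hu : u ∈ N), (ρ₁ ⟨u, hN1 hu⟩ : Matrix (Fin n) (Fin n) k) ∈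
      sp ρ₁ {x | x.1 ∈ N ∧ x.1 ∈ H₂} := by
    intro u hu
    refine (Submodule.span_mono ?_ : sp (ρ₁.comp (Subgroup.inclusion hN1)) {x | x.1 ∈ H₂} ≤ _) (hU H₂ hgen u hu)
    rintro _ ⟨x, hx, rfl⟩
    exact ⟨⟨x.1, hN1 x.2⟩, ⟨x.2, hx⟩, rfl⟩
  obtain ⟨ρ, h1, h2, h3, h4⟩ := patch_alg hn N H₁ H₂ hN1 ρ₁ ρ₂ hs₁ hs₂ htr
    (fun g u hu hu' => hconj g u _ _) hsp (hgen.mono le_rfl hUN)
  exact ⟨ρ, continuous_of_open hH₂ h2 hc₂, h1, h2, h3, h4⟩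

/-- representations obtained by patching with the same `ρ₁` have the same traces -/
theorem two_compare (hn : ((n.factorial : ℕ) : k) ≠ 0) [N.Normal] (hUN : U ≤ N) (hN1 : N ≤ H₁)
    (hU : ∀ H : Subgroup G, Gen H U → ∀ (u : G) (hu : u ∈ N),
        ((ρ₁.comp (Subgroup.inclusion hN1)) ⟨u, hu⟩ : Matrix (Fin n) (Fin n) k) ∈
          sp (ρ₁.comp (Subgroup.inclusion hN1)) {x | x.1 ∈ H})
    {ρ ρ' : G →* GL (Fin n) k} (hs : Semisimple ρ) (hs' : Semisimple ρ')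
    (h1 : ∀ (h : G) (hh : h ∈ H₁), (ρ h : Matrix (Fin n) (Fin n) k).trace =
        (ρ₁ ⟨h, hh⟩ : Matrix (Fin n) (Fin n) k).trace)
    (h1' : ∀ (h : G) (hh : h ∈ H₁), (ρ' h : Matrix (Fin n) (Fin n) k).trace =
        (ρ₁ ⟨h, hh⟩ : Matrix (Fin n) (Fin n) k).trace)
    (H : Subgroup G) (hH : Gen H U)
    (htr : ∀ h ∈ H, (ρ h : Matrix (Fin n) (Fin n) k).trace = (ρ' h : Matrix (Fin n) (Fin n) k).trace) (g : G) :
    (ρ g : Matrix (Fin n) (Fin n) k).trace = (ρ' g : Matrix (Fin n) (Fin n) k).trace := by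
  refine compare N H hs' hn (fun g hg => (h1 g (hN1 hg)).trans (h1' g (hN1 hg)).symm) htr (fun u hu => ?_)
    (hH.mono le_rfl hUN) g
  have h2 := span_transfer (ρ := ρ₁.comp (Subgroup.inclusion hN1)) (ρ' := ρ.comp N.subtype) (clifford N hs) hn
    (fun g => (h1 g.1 (hN1 g.2)).symm) (X := {x | x.1 ∈ H}) (fun g => hU H hH g.1 g.2) ⟨u, hu⟩
  refine (Submodule.span_mono ?_ : sp (ρ.comp N.subtype) {x | x.1 ∈ H} ≤ _) h2
  rintro _ ⟨x, hx, rfl⟩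
  exact ⟨x.1, ⟨x.2, hx⟩, rfl⟩

/-- the members of a family of open subgroups with semisimple representations which have the same traces -/
structure Family (𝓗 : Set (Subgroup G)) (R : ∀ H ∈ 𝓗, H →* GL (Fin n) k) : Prop where
  opn : ∀ H ∈ 𝓗, IsOpen (H : Set G)
  cont : ∀ H hH, Continuous (R H hH)
  semi : ∀ H hH, Semisimple (R H hH)
  tr : ∀ (H : Subgroup G) (hH : H ∈ 𝓗) (H' : Subgroup G) (hH' : H' ∈ 𝓗) (g x : G) (hx : x ∈ H)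
    (hx' : g⁻¹ * x * g ∈ H'), (R H' hH' ⟨g⁻¹ * x * g, hx'⟩ : Matrix (Fin n) (Fin n) k).trace =
      (R H hH ⟨x, hx⟩ : Matrix (Fin n) (Fin n) k).trace
  large : ∀ U : Subgroup G, U.Normal → IsOpen (U : Set G) → ∃ H ∈ 𝓗, Gen H U

theorem Family.tr' {𝓗 : Set (Subgroup G)} {R : ∀ H ∈ 𝓗, H →* GL (Fin n) k} (F : Family 𝓗 R)
    {H : Subgroup G} (hH : H ∈ 𝓗) {H' : Subgroup G} (hH' : H' ∈ 𝓗) (x : G) (hx : x ∈ H)
    (hx' : x ∈ H') : (R H' hH' ⟨x, hx'⟩ : Matrix (Fin n) (Fin n) k).trace =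
      (R H hH ⟨x, hx⟩ : Matrix (Fin n) (Fin n) k).trace := by
  have h := F.tr H hH H' hH' 1 x hx (by rwa [inv_one, one_mul, mul_one])
  have e : (⟨1⁻¹ * x * 1, by rwa [inv_one, one_mul, mul_one]⟩ : H') = ⟨x, hx'⟩ := by
    apply Subtype.ext
    show 1⁻¹ * x * 1 = x
    group
  rw [e] at h
  exact h

/-- **Patching for families.** -/
theorem family (hn : ((n.factorial : ℕ) : k) ≠ 0) {𝓗 : Set (Subgroup G)} {R : ∀ H ∈ 𝓗, H →* GL (Fin n) k}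
    (F : Family 𝓗 R) :
    ∃ ρ : G →* GL (Fin n) k, Continuous ρ ∧ Semisimple ρ ∧ ∃ U₀ : Subgroup G, U₀.Normal ∧ IsOpen (U₀ : Set G) ∧
      ∀ (H : Subgroup G) (hH : H ∈ 𝓗), Gen H U₀ →
        (∀ x : H, (ρ x : Matrix (Fin n) (Fin n) k).trace = (R H hH x : Matrix (Fin n) (Fin n) k).trace) ∧
        ∃ ρ' : G →* GL (Fin n) k, Semisimple ρ' ∧
          (∀ g, (ρ g : Matrix (Fin n) (Fin n) k).trace = (ρ' g : Matrix (Fin n) (Fin n) k).trace) ∧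
          ∀ x : H, ρ' x = R H hH x := by
  obtain ⟨H₁, hH₁, -⟩ := F.large ⊤ inferInstance isOpen_univ
  obtain ⟨N, U, hNn, hUn, hNo, hUo, hUN, hN1, hU⟩ := exists_NU hn H₁ (F.opn H₁ hH₁) (R H₁ hH₁) (F.cont _ _) (F.semi _ _)
  haveI := hNn
  obtain ⟨H₂, hH₂, hg2⟩ := F.large U hUn hUo
  have hconj : ∀ (g u : G) (hu : u ∈ H₁) (hu' : g⁻¹ * u * g ∈ H₁),
      (R H₁ hH₁ ⟨g⁻¹ * u * g, hu'⟩ : Matrix (Fin n) (Fin n) k).trace =
      (R H₁ hH₁ ⟨u, hu⟩ : Matrix (Fin n) (Fin n) k).trace := fun g u hu hu' => F.tr H₁ hH₁ H₁ hH₁ g u hu hu'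
  obtain ⟨ρ, hc, hs, he, ht, -⟩ := two hn (F.semi H₁ hH₁) hUN hN1 hU hconj H₂ (F.opn H₂ hH₂) (R H₂ hH₂) (F.cont _ _)
    (F.semi _ _) (fun x h1 h2 => F.tr' hH₂ hH₁ x h2 h1) hg2
  obtain ⟨U', hU'⟩ := ProfiniteGrp.exist_openNormalSubgroup_sub_open_nhds_of_one
    ((F.opn H₂ hH₂).inter hUo) ⟨H₂.one_mem, U.one_mem⟩
  refine ⟨ρ, hc, hs, U'.toSubgroup, U'.isNormal', U'.isOpen', fun H₃ hH₃ hg3 => ?_⟩
  have h5 : U'.toSubgroup ≤ H₂ := fun x hx => (hU' hx).1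
  have h6 : U'.toSubgroup ≤ U := fun x hx => (hU' hx).2
  obtain ⟨ρ', hc', hs', he', ht', -⟩ := two hn (F.semi H₁ hH₁) hUN hN1 hU hconj H₃ (F.opn H₃ hH₃) (R H₃ hH₃)
    (F.cont _ _) (F.semi _ _) (fun x h1 h2 => F.tr' hH₃ hH₁ x h2 h1) (hg3.mono le_rfl h6)
  have key : ∀ g, (ρ g : Matrix (Fin n) (Fin n) k).trace = (ρ' g : Matrix (Fin n) (Fin n) k).trace := by
    refine two_compare hn hUN hN1 hU hs hs' ht ht' (H₂ ⊓ H₃) (hg2.inf hg3 h5 h6) fun h hh => ?_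
    rw [he h hh.1, he' h hh.2]
    exact F.tr' hH₃ hH₂ h hh.2 hh.1
  refine ⟨fun x => ?_, ρ', hs', key, fun x => he' x.1 x.2⟩
  rw [key, he' x.1 x.2]

end

end Pool.Agent.X289.TF
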