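import Pool.Agent.X289.TF.Fam
import Pool.Agent.X320.DS.Frob
import Pool.Agent.X320.DS.Rel
import Pool.Agent.TH658.Eq.Newt

/-! Patching of Galois representations of number fields over linearly disjoint extensions. -/

set_option autoImplicit false
set_option linter.all false

namespace Pool.Agent.X289.TF

open Topology Filter NumberField IsDedekindDomain Polynomial
open Pool.Agent.W401.Cheb
open Pool.Agent.X320.DS
open Matrix Module

section newt

variable {k : Type} [Field k] {n : ℕ}

/-- traces of powers determine the characteristic polynomial if `n!` is invertible -/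
theorem charpoly_eq_of_traces' (hn : ((n.factorial : ℕ) : k) ≠ 0) (A B : Matrix (Fin n) (Fin n) k)
    (h : ∀ j : ℕ, (A ^ j).trace = (B ^ j).trace) : A.charpoly = B.charpoly := by
  have hbig : ∀ (C : Matrix (Fin n) (Fin n) k) (j : ℕ), n < j → C.charpolyRev.coeff j = 0 := by
    intro C j hj
    rw [← Matrix.reverse_charpoly]
    refine Polynomial.coeff_eq_zero_of_natDegree_lt (lt_of_le_of_lt ?_ hj)
    refine (Polynomial.reverse_natDegree_le _).trans ?_
    rw [Matrix.charpoly_natDegree_eq_dim, Fintype.card_fin]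
  have h1 : ∀ j, A.charpolyRev.coeff j = B.charpolyRev.coeff j := by
    intro j
    induction j using Nat.strong_induction_on with
    | _ j ih =>
      rcases j with _ | j
      · rw [coeff_zero_eq_eval_zero, coeff_zero_eq_eval_zero, Matrix.eval_charpolyRev,
          Matrix.eval_charpolyRev]
      · by_cases hj : n < j + 1
        · rw [hbig A _ hj, hbig B _ hj]
        · have hk : ((j : k) + 1) ≠ 0 := by
            have := natCast_ne (k := k) hn (Nat.succ_ne_zero j) (by omega)
            exact_mod_cast this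
          refine mul_right_cancel₀ hk ?_
          rw [Pool.Agent.TH658.Eq.newton, Pool.Agent.TH658.Eq.newton]
          congr 1
          refine Finset.sum_congr rfl fun p hp => ?_
          have h3 := (Finset.HasAntidiagonal.mem_antidiagonal.mp hp)
          rw [ih p.1 (by omega), h]
  have h2 : A.charpolyRev = B.charpolyRev := Polynomial.ext h1
  rw [← Matrix.reverse_charpoly, ← Matrix.reverse_charpoly] at h2
  have hd : A.charpoly.natDegree = B.charpoly.natDegree := by
    rw [Matrix.charpoly_natDegree_eq_dim, Matrix.charpoly_natDegree_eq_dim]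
  unfold reverse at h2
  rw [hd] at h2
  have h4 := congrArg (reflect B.charpoly.natDegree) h2
  rw [reflect_reflect, reflect_reflect] at h4
  exact h4

end newt

section gal

variable {K : Type} [Field K] [NumberField K]

theorem exists_field (U : Subgroup (GK K)) (hU : U.Normal) (hUo : IsOpen (U : Set (GK K))) :
    ∃ M : IntermediateField K (AlgebraicClosure K), FiniteDimensional K M ∧ IsGalois K M ∧ M.fixingSubgroup = U := by
  have hcl : IsClosed (U : Set (GK K)) := Subgroup.isClosed_of_isOpen U hUo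
  have e : (IntermediateField.fixedField U).fixingSubgroup = U :=
    InfiniteGalois.fixingSubgroup_fixedField ⟨U, hcl⟩
  refine ⟨IntermediateField.fixedField U, ?_, ?_, e⟩
  · rw [← InfiniteGalois.isOpen_iff_finite, e]
    exact hUo
  · rw [← InfiniteGalois.normal_iff_isGalois, e]
    exact hU

theorem gen_of_inf (F M : IntermediateField K (AlgebraicClosure K)) [FiniteDimensional K F] [IsGalois K M]
    (h : F ⊓ M = ⊥) : Gen F.fixingSubgroup M.fixingSubgroup := by
  haveI hMn : M.fixingSubgroup.Normal := (InfiniteGalois.normal_iff_isGalois M).2 inferInstance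
  have ho : IsOpen ((F.fixingSubgroup ⊔ M.fixingSubgroup : Subgroup (GK K)) : Set (GK K)) :=
    Subgroup.isOpen_mono le_sup_left (IntermediateField.fixingSubgroup_isOpen F)
  have hcl : IsClosed ((F.fixingSubgroup ⊔ M.fixingSubgroup : Subgroup (GK K)) : Set (GK K)) :=
    Subgroup.isClosed_of_isOpen _ ho
  have e : (IntermediateField.fixedField (F.fixingSubgroup ⊔ M.fixingSubgroup)).fixingSubgroup =
      F.fixingSubgroup ⊔ M.fixingSubgroup := InfiniteGalois.fixingSubgroup_fixedField ⟨_, hcl⟩
  have hb : IntermediateField.fixedField (F.fixingSubgroup ⊔ M.fixingSubgroup) = ⊥ := by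
    rw [← le_bot_iff, ← h]
    refine le_inf ?_ ?_
    · rw [← InfiniteGalois.fixedField_fixingSubgroup F]
      refine (IntermediateField.le_iff_le _ _).2 ?_
      rw [InfiniteGalois.fixedField_fixingSubgroup F, e]
      exact le_sup_left
    · rw [← InfiniteGalois.fixedField_fixingSubgroup M]
      refine (IntermediateField.le_iff_le _ _).2 ?_
      rw [InfiniteGalois.fixedField_fixingSubgroup M, e]
      exact le_sup_right
  have ht : F.fixingSubgroup ⊔ M.fixingSubgroup = ⊤ := by
    rw [← e, hb, IntermediateField.fixingSubgroup_bot]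
  intro g
  have hg : g ∈ F.fixingSubgroup ⊔ M.fixingSubgroup := by rw [ht]; trivial
  obtain ⟨y, hy, z, hz, hyz⟩ := Subgroup.mem_sup_of_normal_right.mp hg
  exact ⟨y, hy, z, hz, hyz.symm⟩

end gal

section cons

variable {K : Type} [Field K] [NumberField K] {n : ℕ} {Ω : Type} [Field Ω] [TopologicalSpace Ω]
  [IsTopologicalRing Ω] [T2Space Ω]

/-- `ρ`, a representation of the subgroup `H`, is trivial on the inertia elements in `H` at the places outside
`S`, and the inverses of the Frobenius elements at `v` which lie in `H` have the characteristic polynomial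
`Q v`. -/
def COn (H : Subgroup (GK K)) (ρ : H →* GL (Fin n) Ω) (S : Set (HeightOneSpectrum (𝓞 K)))
    (Q : HeightOneSpectrum (𝓞 K) → Polynomial Ω) : Prop :=
  ∀ v, v ∉ S → (∀ τ : H, IsInert v (τ : GK K) → ρ τ = 1) ∧
    ∀ σ : H, IsFrob v ((σ : GK K)⁻¹) → (ρ σ : Matrix (Fin n) (Fin n) Ω).charpoly = Q v

theorem trace_of_charpoly (A B : Matrix (Fin n) (Fin n) Ω) (h : A.charpoly = B.charpoly) : A.trace = B.trace := by
  rcases Nat.eq_zero_or_pos n with hn | hn
  · subst hn
    rw [Matrix.trace, Matrix.trace, Finset.univ_eq_empty, Finset.sum_empty, Finset.sum_empty]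
  · haveI : Nonempty (Fin n) := ⟨⟨0, hn⟩⟩
    rw [Matrix.trace_eq_neg_charpoly_coeff, Matrix.trace_eq_neg_charpoly_coeff, h]

/-- the traces of corresponding representations agree on conjugate elements -/
theorem consistent_conj {S : Set (HeightOneSpectrum (𝓞 K))} (hS : S.Finite)
    {Q : HeightOneSpectrum (𝓞 K) → Polynomial Ω} {H H' : Subgroup (GK K)} (hH : IsOpen (H : Set (GK K)))
    (hH' : IsOpen (H' : Set (GK K))) {ρ : H →* GL (Fin n) Ω} {ρ' : H' →* GL (Fin n) Ω} (hρ : Continuous ρ)
    (hρ' : Continuous ρ') (hc : COn H ρ S Q) (hc' : COn H' ρ' S Q) (c g : GK K) (hg : g ∈ H)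
    (hg' : c⁻¹ * g * c ∈ H') :
    (ρ' ⟨c⁻¹ * g * c, hg'⟩ : Matrix (Fin n) (Fin n) Ω).trace =
      (ρ ⟨g, hg⟩ : Matrix (Fin n) (Fin n) Ω).trace := by
  by_contra hj
  let I : Subgroup (GK K) := H ⊓ H'.comap (MulAut.conj c⁻¹).toMonoidHom
  have hIc : ∀ x : I, c⁻¹ * x.1 * c ∈ H' := fun x => by
    have h : (MulAut.conj c⁻¹) x.1 ∈ H' := x.2.2
    rwa [MulAut.conj_apply, inv_inv] at h
  have hI : IsOpen (I : Set (GK K)) := by
    refine hH.inter ?_
    refine hH'.preimage ?_
    have : (fun x : GK K => (MulAut.conj c⁻¹).toMonoidHom x) = fun x => c⁻¹ * x * c := by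
      funext x
      show (MulAut.conj c⁻¹) x = _
      rw [MulAut.conj_apply, inv_inv]
    show Continuous (fun x : GK K => (MulAut.conj c⁻¹).toMonoidHom x)
    rw [this]
    exact (continuous_const_mul _).mul continuous_const
  let i1 : I → H := fun x => ⟨x.1, x.2.1⟩
  let i2 : I → H' := fun x => ⟨c⁻¹ * x.1 * c, hIc x⟩
  have hi1 : Continuous i1 := Continuous.subtype_mk continuous_subtype_val _
  have hi2 : Continuous i2 := Continuous.subtype_mk
    (((continuous_const_mul _).comp continuous_subtype_val).mul continuous_const) _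
  let A : Set I := {x | (ρ' (i2 x) : Matrix (Fin n) (Fin n) Ω).trace ≠
    (ρ (i1 x) : Matrix (Fin n) (Fin n) Ω).trace}
  have hA : IsOpen A := isOpen_ne_fun (Units.continuous_val.comp (hρ'.comp hi2)).matrix_trace
    (Units.continuous_val.comp (hρ.comp hi1)).matrix_trace
  have hA2 : IsOpen (Subtype.val '' A : Set (GK K)) := hI.isOpenMap_subtype_val _ hA
  have hgI : g ∈ I := ⟨hg, by
    show (MulAut.conj c⁻¹) g ∈ H'
    rwa [MulAut.conj_apply, inv_inv]⟩
  have hgA : g ∈ (Subtype.val '' A : Set (GK K)) := ⟨⟨g, hgI⟩, hj, rfl⟩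
  have hW : IsOpen ((fun x => g * x) ⁻¹' (Subtype.val '' A : Set (GK K))) := hA2.preimage (continuous_const_mul _)
  have h1 : (1 : GK K) ∈ (fun x => g * x) ⁻¹' (Subtype.val '' A : Set (GK K)) := by
    show g * 1 ∈ (Subtype.val '' A : Set (GK K))
    rwa [mul_one]
  obtain ⟨U, hU⟩ := ProfiniteGrp.exist_openNormalSubgroup_sub_open_nhds_of_one hW h1
  haveI : U.toSubgroup.Normal := U.isNormal'
  obtain ⟨v, hv, σ, hσ, hmk⟩ := exists_frob_coset U.toSubgroup U.isOpen' g S hS
  have h2 : g⁻¹ * σ⁻¹ ∈ U.toSubgroup := QuotientGroup.eq.1 hmk.symm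
  have h3 := hU h2
  have h4 : σ⁻¹ ∈ (Subtype.val '' A : Set (GK K)) := by
    have : g * (g⁻¹ * σ⁻¹) ∈ (Subtype.val '' A : Set (GK K)) := h3
    rwa [mul_inv_cancel_left] at this
  obtain ⟨y, hyA, hy⟩ := h4
  apply hyA
  have hσ' : IsFrob v ((y : GK K)⁻¹) := by
    rw [hy, inv_inv]
    exact hσ
  have hσ'' : IsFrob v ((c⁻¹ * (y : GK K) * c)⁻¹) := by
    have := isFrob_conj hσ' c⁻¹
    have e : (c⁻¹ * (y : GK K) * c)⁻¹ = c⁻¹ * (y : GK K)⁻¹ * (c⁻¹)⁻¹ := by group
    rw [e]
    exact this
  refine trace_of_charpoly _ _ ?_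
  rw [(hc v hv).2 (i1 y) hσ', (hc' v hv).2 (i2 y) hσ'']

end cons

section main

variable {K : Type} [Field K] [NumberField K] {n : ℕ} {Ω : Type} [Field Ω] [TopologicalSpace Ω]
  [IsTopologicalRing Ω] [T2Space Ω]

theorem charpoly_conj (A : GL (Fin n) Ω) (B : GL (Fin n) Ω) :
    ((A * B * A⁻¹ : GL (Fin n) Ω) : Matrix (Fin n) (Fin n) Ω).charpoly = (B : Matrix (Fin n) (Fin n) Ω).charpoly := by
  rw [Units.val_mul, Matrix.charpoly_mul_comm, ← Units.val_mul, ← mul_assoc, inv_mul_cancel, one_mul]

/-- a semisimple representation with the traces of `ρ'` is trivial where `ρ'` is trivial -/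
theorem eq_one_of_trace {Γ : Type*} [Group Γ] {k : Type*} [Field k] {ρ ρ' : Γ →* GL (Fin n) k} (hs : Semisimple ρ)
    (hn : ((n.factorial : ℕ) : k) ≠ 0)
    (htr : ∀ g, (ρ g : Matrix (Fin n) (Fin n) k).trace = (ρ' g : Matrix (Fin n) (Fin n) k).trace) {g : Γ}
    (hg : ρ' g = 1) : ρ g = 1 := by
  obtain ⟨r, x, -, hx⟩ := exists_basis hs hn
  have := hx g 1 fun i => by
    rw [htr, htr, map_mul, hg, mul_one, mul_one]
  rw [this, map_one]

/-- a matrix of finite order with the characteristic polynomial of `1` is `1` (characteristic zero) -/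
theorem eq_one_of_pow {k : Type*} [Field k] [CharZero k] (A : Matrix (Fin n) (Fin n) k) {m : ℕ} (hm : 0 < m)
    (h1 : A ^ m = 1) (h2 : A.charpoly = (1 : Matrix (Fin n) (Fin n) k).charpoly) : A = 1 := by
  have h3 : IsNilpotent (A - 1) := by
    have h4 := Matrix.aeval_self_charpoly A
    rw [h2, Matrix.charpoly_one, map_pow, map_sub, aeval_X, map_one] at h4
    exact ⟨_, h4⟩
  have hcomm : Commute A 1 := Commute.one_right A
  have h5 : (A - 1) * ∑ i ∈ Finset.range m, A ^ i = 0 := by
    rw [mul_geom_sum, h1, sub_self]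
  have h6 : IsUnit (∑ i ∈ Finset.range m, A ^ i) := by
    have h7 : (∑ i ∈ Finset.range m, A ^ i) = (m : Matrix (Fin n) (Fin n) k) +
        (A - 1) * ∑ i ∈ Finset.range m, ∑ j ∈ Finset.range i, A ^ j := by
      rw [Finset.mul_sum]
      rw [Finset.sum_congr rfl fun i _ => mul_geom_sum A i, Finset.sum_sub_distrib, Finset.sum_const,
        Finset.card_range, nsmul_one]
      abel
    rw [h7]
    have hc : Commute (A - 1) (∑ i ∈ Finset.range m, ∑ j ∈ Finset.range i, A ^ j) := by
      refine Commute.sum_right _ _ _ fun i _ => Commute.sum_right _ _ _ fun j _ => ?_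
      exact (Commute.sub_left (Commute.refl A) (Commute.one_left A)).pow_right j
    have hnil : IsNilpotent ((A - 1) * ∑ i ∈ Finset.range m, ∑ j ∈ Finset.range i, A ^ j) :=
      hc.isNilpotent_mul_right h3
    have hmu : IsUnit ((m : Matrix (Fin n) (Fin n) k)) := by
      have : (m : Matrix (Fin n) (Fin n) k) = algebraMap k _ (m : k) := (map_natCast _ m).symm
      rw [this]
      exact (IsUnit.mk0 (m : k) (by exact_mod_cast hm.ne')).map _
    exact hnil.isUnit_add_left_of_commute hmu (Nat.cast_commute m _).symm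
  have h8 := h6.mul_left_eq_zero.1 h5
  exact sub_eq_zero.1 h8

end main

end Pool.Agent.X289.TF
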