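import Pool.Agent.X289.TF.PseudoRep
import Pool.Agent.X289.TF.LG

/-! Two-dimensional representations from extensions such that any two elements fix one of them. -/

set_option autoImplicit false
set_option linter.all false

namespace Pool.Agent.X289.TF

open Topology Filter NumberField IsDedekindDomain Polynomial
open Pool.Agent.W401.Cheb
open Pool.Agent.X320.DS
open Matrix Module

theorem gl2_tr {k : Type*} [Field k] (A B : GL (Fin 2) k) :
    ((A * B : GL (Fin 2) k) : Matrix (Fin 2) (Fin 2) k).trace + (B : Matrix (Fin 2) (Fin 2) k).det *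
      ((A * B⁻¹ : GL (Fin 2) k) : Matrix (Fin 2) (Fin 2) k).trace =
      (A : Matrix (Fin 2) (Fin 2) k).trace * (B : Matrix (Fin 2) (Fin 2) k).trace := by
  have h1 : (B : Matrix (Fin 2) (Fin 2) k).det • ((B⁻¹ : GL (Fin 2) k) : Matrix (Fin 2) (Fin 2) k) =
      (B : Matrix (Fin 2) (Fin 2) k).adjugate := by
    have h2 : (B : Matrix (Fin 2) (Fin 2) k) * ((B⁻¹ : GL (Fin 2) k) : Matrix (Fin 2) (Fin 2) k) = 1 := by
      rw [← Units.val_mul, mul_inv_cancel, Units.val_one]
    calc (B : Matrix (Fin 2) (Fin 2) k).det • ((B⁻¹ : GL (Fin 2) k) : Matrix (Fin 2) (Fin 2) k)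
        = ((B : Matrix (Fin 2) (Fin 2) k).adjugate * (B : Matrix (Fin 2) (Fin 2) k)) *
          ((B⁻¹ : GL (Fin 2) k) : Matrix (Fin 2) (Fin 2) k) := by
          rw [Matrix.adjugate_mul, smul_mul_assoc, one_mul]
      _ = _ := by rw [mul_assoc, h2, mul_one]
  rw [Units.val_mul, Units.val_mul, ← smul_eq_mul (B : Matrix (Fin 2) (Fin 2) k).det, ← Matrix.trace_smul,
    ← mul_smul_comm, h1, Matrix.adjugate_fin_two, Matrix.trace_fin_two, Matrix.trace_fin_two, Matrix.trace_fin_two,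
    Matrix.trace_fin_two, Matrix.mul_apply, Matrix.mul_apply, Matrix.mul_apply, Matrix.mul_apply,
    Fin.sum_univ_two, Fin.sum_univ_two, Fin.sum_univ_two, Fin.sum_univ_two]
  simp
  ring

variable {K : Type} [Field K] [NumberField K] {Ω : Type} [Field Ω] [IsAlgClosed Ω] [TopologicalSpace Ω]
  [IsTopologicalRing Ω] [T2Space Ω]

/-- **Pairs.** If every two elements lie in one of the open subgroups `Hs i`, then two-dimensional representations of
the `Hs i` which correspond to `Q` give a representation of the absolute Galois group. -/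
theorem nf_pairs (h2 : (2 : Ω) ≠ 0 ∨ DiscreteTopology Ω) {S : Set (HeightOneSpectrum (𝓞 K))} (hS : S.Finite)
    {Q : HeightOneSpectrum (𝓞 K) → Polynomial Ω} {ι : Type} (Hs : ι → Subgroup (GK K))
    (hopen : ∀ i, IsOpen (Hs i : Set (GK K))) (R : ∀ i, Hs i →* GL (Fin 2) Ω) (hRc : ∀ i, Continuous (R i))
    (hRQ : ∀ i, COn (Hs i) (R i) S Q) (hpair : ∀ g h : GK K, ∃ i, g ∈ Hs i ∧ h ∈ Hs i) :
    ∃ ρ : GK K →* GL (Fin 2) Ω, Continuous ρ ∧ Semisimple ρ ∧
      (∀ i (x : Hs i), (ρ x : Matrix (Fin 2) (Fin 2) Ω).trace = (R i x : Matrix (Fin 2) (Fin 2) Ω).trace ∧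
        (ρ x : Matrix (Fin 2) (Fin 2) Ω).det = (R i x : Matrix (Fin 2) (Fin 2) Ω).det) ∧
      ∀ v, v ∉ S → (∀ τ, IsInert v τ → ρ τ = 1) ∧
        ∀ σ, IsFrob v σ → (ρ σ⁻¹ : Matrix (Fin 2) (Fin 2) Ω).charpoly = Q v := by
  classical
  have hone : ∀ g : GK K, ∃ i, g ∈ Hs i := fun g => by
    obtain ⟨i, hi, -⟩ := hpair g g
    exact ⟨i, hi⟩
  choose I hI using hone
  -- consistency
  have hcon : ∀ i j (x : GK K) (hi : x ∈ Hs i) (hj : x ∈ Hs j),
      (R i ⟨x, hi⟩ : Matrix (Fin 2) (Fin 2) Ω).trace = (R j ⟨x, hj⟩ : Matrix (Fin 2) (Fin 2) Ω).trace ∧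
      (R i ⟨x, hi⟩ : Matrix (Fin 2) (Fin 2) Ω).det = (R j ⟨x, hj⟩ : Matrix (Fin 2) (Fin 2) Ω).det := by
    intro i j x hi hj
    have hIo : IsOpen ((Hs i ⊓ Hs j : Subgroup (GK K)) : Set (GK K)) := (hopen i).inter (hopen j)
    have c1 : Continuous fun y : (Hs i ⊓ Hs j : Subgroup (GK K)) => (⟨y.1, y.2.1⟩ : Hs i) :=
      Continuous.subtype_mk continuous_subtype_val _
    have c2 : Continuous fun y : (Hs i ⊓ Hs j : Subgroup (GK K)) => (⟨y.1, y.2.2⟩ : Hs j) :=
      Continuous.subtype_mk continuous_subtype_val _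
    constructor
    · exact cheb_eq hS hIo (fun y => (R i ⟨y.1, y.2.1⟩ : Matrix (Fin 2) (Fin 2) Ω).trace)
        (fun y => (R j ⟨y.1, y.2.2⟩ : Matrix (Fin 2) (Fin 2) Ω).trace)
        (Units.continuous_val.comp ((hRc i).comp c1)).matrix_trace
        (Units.continuous_val.comp ((hRc j).comp c2)).matrix_trace
        (fun v hv y hy => trace_of_charpoly _ _ (by
          rw [(hRQ i v hv).2 ⟨y.1, y.2.1⟩ hy, (hRQ j v hv).2 ⟨y.1, y.2.2⟩ hy])) ⟨x, hi, hj⟩
    · exact cheb_eq hS hIo (fun y => (R i ⟨y.1, y.2.1⟩ : Matrix (Fin 2) (Fin 2) Ω).det)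
        (fun y => (R j ⟨y.1, y.2.2⟩ : Matrix (Fin 2) (Fin 2) Ω).det)
        (Units.continuous_val.comp ((hRc i).comp c1)).matrix_det
        (Units.continuous_val.comp ((hRc j).comp c2)).matrix_det
        (fun v hv y hy => by
          show (R i ⟨y.1, y.2.1⟩ : Matrix (Fin 2) (Fin 2) Ω).det = (R j ⟨y.1, y.2.2⟩ : Matrix (Fin 2) (Fin 2) Ω).det
          rw [Matrix.det_eq_sign_charpoly_coeff, Matrix.det_eq_sign_charpoly_coeff,
            (hRQ i v hv).2 ⟨y.1, y.2.1⟩ hy, (hRQ j v hv).2 ⟨y.1, y.2.2⟩ hy]) ⟨x, hi, hj⟩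
  let T : GK K → Ω := fun g => (R (I g) ⟨g, hI g⟩ : Matrix (Fin 2) (Fin 2) Ω).trace
  let D : GK K → Ω := fun g => (R (I g) ⟨g, hI g⟩ : Matrix (Fin 2) (Fin 2) Ω).det
  have hT : ∀ i (x : GK K) (hx : x ∈ Hs i), T x = (R i ⟨x, hx⟩ : Matrix (Fin 2) (Fin 2) Ω).trace :=
    fun i x hx => (hcon _ _ x _ _).1
  have hD : ∀ i (x : GK K) (hx : x ∈ Hs i), D x = (R i ⟨x, hx⟩ : Matrix (Fin 2) (Fin 2) Ω).det :=
    fun i x hx => (hcon _ _ x _ _).2
  have hcont : ∀ (f : GK K → Ω) (F : ∀ i, Hs i → Ω), (∀ i, Continuous (F i)) →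
      (∀ i (x : GK K) (hx : x ∈ Hs i), f x = F i ⟨x, hx⟩) → Continuous f := by
    intro f F hF hf
    rw [continuous_iff_continuousAt]
    intro g
    have h1 : ContinuousOn f (Hs (I g) : Set (GK K)) := by
      rw [continuousOn_iff_continuous_domRestrict]
      have e : (Hs (I g) : Set (GK K)).domRestrict f = F (I g) := by
        funext x
        exact hf (I g) x.1 x.2
      rw [e]
      exact hF _
    exact h1.continuousAt ((hopen _).mem_nhds (hI g))
  have hTc : Continuous T := hcont T (fun i x => (R i x : Matrix (Fin 2) (Fin 2) Ω).trace)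
    (fun i => (Units.continuous_val.comp (hRc i)).matrix_trace) hT
  have hDc : Continuous D := hcont D (fun i x => (R i x : Matrix (Fin 2) (Fin 2) Ω).det)
    (fun i => (Units.continuous_val.comp (hRc i)).matrix_det) hD
  have P : PR T D := by
    refine ⟨?_, fun g h => ?_, fun g h => ?_, fun g => ?_, fun g h => ?_⟩
    · have e : R (I 1) ⟨1, hI 1⟩ = 1 := map_one _
      show (R (I 1) ⟨1, hI 1⟩ : Matrix (Fin 2) (Fin 2) Ω).trace = 2
      rw [e, Units.val_one, Matrix.trace_one]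
      simp
    · obtain ⟨i, hg, hh⟩ := hpair g h
      rw [hT i _ ((Hs i).mul_mem hg hh), hT i _ ((Hs i).mul_mem hh hg)]
      have e1 : R i ⟨g * h, (Hs i).mul_mem hg hh⟩ = R i ⟨g, hg⟩ * R i ⟨h, hh⟩ := by
        rw [← map_mul]
        rfl
      have e2 : R i ⟨h * g, (Hs i).mul_mem hh hg⟩ = R i ⟨h, hh⟩ * R i ⟨g, hg⟩ := by
        rw [← map_mul]
        rfl
      rw [e1, e2, Units.val_mul, Units.val_mul, Matrix.trace_mul_comm]
    · obtain ⟨i, hg, hh⟩ := hpair g h
      rw [hD i _ ((Hs i).mul_mem hg hh), hD i _ hg, hD i _ hh]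
      have e1 : R i ⟨g * h, (Hs i).mul_mem hg hh⟩ = R i ⟨g, hg⟩ * R i ⟨h, hh⟩ := by
        rw [← map_mul]
        rfl
      rw [e1, Units.val_mul, Matrix.det_mul]
    · have h3 : (R (I g) ⟨g, hI g⟩ : Matrix (Fin 2) (Fin 2) Ω) *
          (((R (I g) ⟨g, hI g⟩)⁻¹ : GL (Fin 2) Ω) : Matrix (Fin 2) (Fin 2) Ω) = 1 := by
        rw [← Units.val_mul, mul_inv_cancel, Units.val_one]
      have h4 := congrArg Matrix.det h3
      rw [Matrix.det_mul, Matrix.det_one] at h4
      exact left_ne_zero_of_mul_eq_one h4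
    · obtain ⟨i, hg, hh⟩ := hpair g h
      have hh' : h⁻¹ ∈ Hs i := (Hs i).inv_mem hh
      rw [hT i _ ((Hs i).mul_mem hg hh), hT i _ ((Hs i).mul_mem hg hh'), hT i _ hg, hT i _ hh, hD i _ hh]
      have e1 : R i ⟨g * h, (Hs i).mul_mem hg hh⟩ = R i ⟨g, hg⟩ * R i ⟨h, hh⟩ := by
        rw [← map_mul]
        rfl
      have e2 : R i ⟨g * h⁻¹, (Hs i).mul_mem hg hh'⟩ = R i ⟨g, hg⟩ * (R i ⟨h, hh⟩)⁻¹ := by
        rw [← map_inv, ← map_mul]
        rfl
      rw [e1, e2]
      exact gl2_tr _ _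
  obtain ⟨ρ, hs, htr, hdet, hform⟩ := exists_rep P
  have hval : Continuous fun x => (ρ x : Matrix (Fin 2) (Fin 2) Ω) := by
    rcases hform with h | ⟨h0, χ, hχ⟩
    · refine continuous_matrix fun i j => ?_
      refine Submodule.span_induction (p := fun f _ => Continuous f) ?_ ?_ ?_ ?_ (h i j)
      · rintro _ ⟨⟨y, z⟩, rfl⟩
        exact hTc.comp ((continuous_const_mul y).mul continuous_const)
      · exact continuous_const
      · intro f g _ _ hf hg
        exact hf.add hg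
      · intro c f _ hf
        exact continuous_const.mul hf
    · have hdisc : DiscreteTopology Ω := h2.resolve_left (fun h => h h0)
      have hχc : Continuous χ := by
        rw [continuous_iff_continuousAt]
        intro x
        have h3 : ∀ᶠ y in 𝓝 x, D y = D x := by
          have := (hDc.continuousAt (x := x)).eventually (isOpen_discrete {D x} |>.mem_nhds rfl)
          exact this
        have h4 : ∀ᶠ y in 𝓝 x, χ x = χ y := by
          filter_upwards [h3] with y hy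
          have e1 := (hχ y).2
          have e2 := (hχ x).2
          have : (χ x - χ y) ^ 2 = 0 := by linear_combination e2 + e1 + hy + D x * h0 - χ x * χ y * h0
          exact sub_eq_zero.1 (pow_eq_zero_iff (two_ne_zero) |>.1 this)
        exact tendsto_const_nhds.congr' h4
      have e : (fun x => (ρ x : Matrix (Fin 2) (Fin 2) Ω)) = fun x => !![χ x, 0; 0, χ x] := by
        funext x
        exact (hχ x).1
      rw [e]
      refine continuous_matrix fun i j => ?_
      fin_cases i <;> fin_cases j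
      · exact hχc
      · exact continuous_const
      · exact continuous_const
      · exact hχc
  have hρc : Continuous ρ := by
    rw [Units.continuous_iff]
    refine ⟨hval, ?_⟩
    have e1 : (fun g => (((ρ g)⁻¹ : GL (Fin 2) Ω) : Matrix (Fin 2) (Fin 2) Ω)) =
        (fun g => (ρ g : Matrix (Fin 2) (Fin 2) Ω)) ∘ fun g => g⁻¹ := by
      funext g
      show _ = (ρ g⁻¹ : Matrix (Fin 2) (Fin 2) Ω)
      rw [map_inv]
    exact e1 ▸ hval.comp continuous_inv
  refine ⟨ρ, hρc, hs, fun i x => ⟨(htr x).trans (hT i x.1 x.2), (hdet x).trans (hD i x.1 x.2)⟩,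
    fun v hv => ⟨fun τ hτ => ?_, fun σ hσ => ?_⟩⟩
  · rcases hform with h | ⟨h0, χ, hχ⟩
    · have key : ∀ f ∈ TS T, f τ = f 1 := by
        intro f hf
        refine Submodule.span_induction (p := fun f _ => f τ = f 1) ?_ ?_ ?_ ?_ hf
        · rintro _ ⟨⟨y, z⟩, rfl⟩
          show T (y * τ * z) = T (y * 1 * z)
          obtain ⟨i, hyz, hi⟩ := hpair (z * y) τ
          have e1 : T (y * τ * z) = T (z * y * τ) := by
            rw [P.comm, mul_assoc]
          have e2 : T (y * 1 * z) = T (z * y) := by rw [mul_one, P.comm]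
          rw [e1, e2, hT i _ ((Hs i).mul_mem hyz hi), hT i _ hyz]
          have e3 : R i ⟨z * y * τ, (Hs i).mul_mem hyz hi⟩ = R i ⟨z * y, hyz⟩ * R i ⟨τ, hi⟩ := by
            rw [← map_mul]
            rfl
          rw [e3, (hRQ i v hv).1 ⟨τ, hi⟩ hτ, mul_one]
        · rfl
        · intro f g _ _ hf hg
          show f τ + g τ = f 1 + g 1
          rw [hf, hg]
        · intro c f _ hf
          show c * f τ = c * f 1
          rw [hf]
      apply Units.ext
      refine Matrix.ext fun i j => ?_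
      have := key _ (h i j)
      rw [map_one] at this
      exact this
    · have h3 : D τ = 1 := by
        have := (hRQ (I τ) v hv).1 ⟨τ, hI τ⟩ hτ
        show (R (I τ) ⟨τ, hI τ⟩ : Matrix (Fin 2) (Fin 2) Ω).det = 1
        rw [this, Units.val_one, Matrix.det_one]
      have h4 := (hχ τ).2
      have h5 : χ τ = 1 := by
        have : (χ τ - 1) ^ 2 = 0 := by linear_combination h4 + h3 + (1 - χ τ) * h0
        exact sub_eq_zero.1 (pow_eq_zero_iff (two_ne_zero) |>.1 this)
      apply Units.ext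
      rw [(hχ τ).1, h5]
      exact Matrix.one_fin_two.symm
  · have hi := hI σ⁻¹
    have e := (hRQ (I σ⁻¹) v hv).2 ⟨σ⁻¹, hi⟩ (by
      show IsFrob v (σ⁻¹)⁻¹
      rwa [inv_inv])
    rw [← e, Matrix.charpoly_fin_two, Matrix.charpoly_fin_two, htr, hdet]

end Pool.Agent.X289.TF
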