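import Pool.Agent.X289.TF.Basis

/-! The patching lemma for two subgroups. -/

set_option autoImplicit false
set_option linter.all false

namespace Pool.Agent.X289.TF

open Matrix Module
open Pool.Agent.X320.DS

theorem semisimple_of_range {Γ Γ' k : Type*} [Group Γ] [Group Γ'] [Field k] {n : ℕ} {ρ : Γ →* GL (Fin n) k}
    {ρ' : Γ' →* GL (Fin n) k} (h : ∀ x, ∃ y, ρ' y = ρ x) (h' : ∀ y, ∃ x, ρ x = ρ' y) (hρ : Semisimple ρ) :
    Semisimple ρ' := by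
  intro W hW
  obtain ⟨W', h1, h2⟩ := hρ W fun x w hw => by
    obtain ⟨y, hy⟩ := h x
    rw [← hy]
    exact hW y w hw
  refine ⟨W', fun y w hw => ?_, h2⟩
  obtain ⟨x, hx⟩ := h' y
  rw [← hx]
  exact h1 x w hw

/-- Clifford's theorem for a normal subgroup contained in `H` -/
theorem clifford_le {Γ k : Type*} [Group Γ] [Field k] {n : ℕ} {N H : Subgroup Γ} [hN : N.Normal] (hNH : N ≤ H)
    {ρ : H →* GL (Fin n) k} (hρ : Semisimple ρ) : Semisimple (ρ.comp (Subgroup.inclusion hNH)) := by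
  have h1 := clifford (N.subgroupOf H) hρ
  refine semisimple_of_range (fun x => ?_) (fun y => ?_) h1
  · exact ⟨⟨x.1.1, x.2⟩, rfl⟩
  · exact ⟨⟨⟨y.1, hNH y.2⟩, y.2⟩, rfl⟩

/-- Clifford's theorem for the intersection with a normal subgroup -/
theorem clifford_inf {Γ k : Type*} [Group Γ] [Field k] {n : ℕ} (N : Subgroup Γ) {H : Subgroup Γ} [hN : N.Normal]
    {ρ : H →* GL (Fin n) k} (hρ : Semisimple ρ) :
    Semisimple (ρ.comp (Subgroup.inclusion (inf_le_right : N ⊓ H ≤ H))) := by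
  have h1 := clifford (N.subgroupOf H) hρ
  refine semisimple_of_range (fun x => ?_) (fun y => ?_) h1
  · exact ⟨⟨x.1.1, x.2, x.1.2⟩, rfl⟩
  · exact ⟨⟨⟨y.1, y.2.2⟩, y.2.1⟩, rfl⟩

section

variable {G : Type*} [Group G] {k : Type*} [Field k] {n : ℕ}

/-- the matrix form -/
def toM {Γ : Type*} [Group Γ] (ρ : Γ →* GL (Fin n) k) : Γ →* Matrix (Fin n) (Fin n) k := (Units.coeHom _).comp ρ

theorem datum (hn : ((n.factorial : ℕ) : k) ≠ 0) (N H₁ H₂ : Subgroup G) [hN : N.Normal] (hN1 : N ≤ H₁)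
    (ρ₁ : H₁ →* GL (Fin n) k) (ρ₂ : H₂ →* GL (Fin n) k) (hs₁ : Semisimple ρ₁) (hs₂ : Semisimple ρ₂)
    (htr : ∀ (x : G) (h1 : x ∈ H₁) (h2 : x ∈ H₂), (ρ₁ ⟨x, h1⟩ : Matrix (Fin n) (Fin n) k).trace =
      (ρ₂ ⟨x, h2⟩ : Matrix (Fin n) (Fin n) k).trace)
    (hconj : ∀ (g u : G) (hu : u ∈ N) (hu' : g⁻¹ * u * g ∈ N),
      (ρ₁ ⟨g⁻¹ * u * g, hN1 hu'⟩ : Matrix (Fin n) (Fin n) k).trace =
      (ρ₁ ⟨u, hN1 hu⟩ : Matrix (Fin n) (Fin n) k).trace)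
    (hspan : ∀ (u : G) (hu : u ∈ N), (ρ₁ ⟨u, hN1 hu⟩ : Matrix (Fin n) (Fin n) k) ∈
      sp ρ₁ {x | x.1 ∈ N ∧ x.1 ∈ H₂})
    (hgen : ∀ g : G, ∃ h ∈ H₂, ∃ u ∈ N, g = h * u) :
    Datum N H₂ (toM (ρ₁.comp (Subgroup.inclusion hN1))) (toM ρ₂) := by
  have hS1 : ∀ u : N, (toM (ρ₁.comp (Subgroup.inclusion hN1))) u ∈ Submodule.span k
      (Set.range fun x : (N ⊓ H₂ : Subgroup G) => (toM (ρ₁.comp (Subgroup.inclusion hN1))) ⟨x.1, x.2.1⟩) := by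
    intro u
    refine (Submodule.span_mono ?_ : sp ρ₁ {x | x.1 ∈ N ∧ x.1 ∈ H₂} ≤ _) (hspan u.1 u.2)
    rintro _ ⟨x, hx, rfl⟩
    exact ⟨⟨x.1, hx.1, hx.2⟩, rfl⟩
  refine ⟨fun x h1 h2 => htr x _ h2, fun g _ u hu hu' => hconj g u hu hu', hS1, ?_, ?_, hgen⟩
  · intro a ha h
    refine nondeg (clifford_le hN1 hs₁) hn (a := a) ?_ fun u => ?_
    · refine (Submodule.span_mono ?_ :
        Submodule.span k (Set.range fun x : (N ⊓ H₂ : Subgroup G) =>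
          (toM (ρ₁.comp (Subgroup.inclusion hN1))) ⟨x.1, x.2.1⟩) ≤ sp _ Set.univ) ha
      rintro _ ⟨x, rfl⟩
      exact ⟨_, Set.mem_univ _, rfl⟩
    · refine Submodule.span_induction (p := fun b _ => (a * b).trace = 0) ?_ ?_ ?_ ?_ (hS1 u)
      · rintro _ ⟨x, rfl⟩
        exact h x
      · rw [mul_zero, Matrix.trace_zero]
      · intro x y _ _ hx hy
        rw [mul_add, Matrix.trace_add, hx, hy, add_zero]
      · intro d x _ hx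
        rw [mul_smul_comm, Matrix.trace_smul, hx, smul_zero]
  · intro a ha h
    refine nondeg (clifford_inf N hs₂) hn (a := a) ?_ h
    refine (Submodule.span_mono ?_ :
        Submodule.span k (Set.range fun x : (N ⊓ H₂ : Subgroup G) => (toM ρ₂) ⟨x.1, x.2.2⟩) ≤ sp _ Set.univ) ha
    rintro _ ⟨x, rfl⟩
    exact ⟨x, Set.mem_univ _, rfl⟩

/-- **The patching lemma for two subgroups, algebraic part.** -/
theorem patch_alg (hn : ((n.factorial : ℕ) : k) ≠ 0) (N H₁ H₂ : Subgroup G) [hN : N.Normal] (hN1 : N ≤ H₁)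
    (ρ₁ : H₁ →* GL (Fin n) k) (ρ₂ : H₂ →* GL (Fin n) k) (hs₁ : Semisimple ρ₁) (hs₂ : Semisimple ρ₂)
    (htr : ∀ (x : G) (h1 : x ∈ H₁) (h2 : x ∈ H₂), (ρ₁ ⟨x, h1⟩ : Matrix (Fin n) (Fin n) k).trace =
      (ρ₂ ⟨x, h2⟩ : Matrix (Fin n) (Fin n) k).trace)
    (hconj : ∀ (g u : G) (hu : u ∈ N) (hu' : g⁻¹ * u * g ∈ N),
      (ρ₁ ⟨g⁻¹ * u * g, hN1 hu'⟩ : Matrix (Fin n) (Fin n) k).trace =
      (ρ₁ ⟨u, hN1 hu⟩ : Matrix (Fin n) (Fin n) k).trace)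
    (hspan : ∀ (u : G) (hu : u ∈ N), (ρ₁ ⟨u, hN1 hu⟩ : Matrix (Fin n) (Fin n) k) ∈
      sp ρ₁ {x | x.1 ∈ N ∧ x.1 ∈ H₂})
    (hgen : ∀ g : G, ∃ h ∈ H₂, ∃ u ∈ N, g = h * u) :
    ∃ ρ : G →* GL (Fin n) k, Semisimple ρ ∧ (∀ (h : G) (hh : h ∈ H₂), ρ h = ρ₂ ⟨h, hh⟩) ∧
      (∀ (h : G) (hh : h ∈ H₁), (ρ h : Matrix (Fin n) (Fin n) k).trace =
        (ρ₁ ⟨h, hh⟩ : Matrix (Fin n) (Fin n) k).trace) ∧
      ∀ (u : G) (hu : u ∈ N), ρ₁ ⟨u, hN1 hu⟩ = 1 → ρ u = 1 := by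
  have D := datum hn N H₁ H₂ hN1 ρ₁ ρ₂ hs₁ hs₂ htr hconj hspan hgen
  obtain ⟨R, hR⟩ := exists_patch D
  have hval : ∀ g, (R.toHomUnits g : Matrix (Fin n) (Fin n) k) = R g := fun g => MonoidHom.coe_toHomUnits R g
  have h2 : ∀ (h : G) (hh : h ∈ H₂), R.toHomUnits h = ρ₂ ⟨h, hh⟩ := by
    intro h hh
    apply Units.ext
    rw [hval]
    have h1 := hR h hh 1 N.one_mem
    rw [mul_one, t_eq_one D ⟨1, N.one_mem⟩ (map_one _), mul_one] at h1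
    exact h1
  refine ⟨R.toHomUnits, ?_, h2, ?_, ?_⟩
  · intro W hW
    obtain ⟨W', hW', hc⟩ := hs₂ W fun h w hw => by
      rw [← h2 h.1 h.2]
      exact hW h.1 w hw
    refine ⟨W', fun g w hw => ?_, hc⟩
    obtain ⟨h, hh, u, hu, rfl⟩ := hgen g
    rw [hval, hR h hh u hu, ← Matrix.mulVec_mulVec]
    refine hW' ⟨h, hh⟩ _ ?_
    refine Submodule.span_induction (p := fun b _ => b *ᵥ w ∈ W') ?_ ?_ ?_ ?_ (t_mem D ⟨u, hu⟩)
    · rintro _ ⟨x, rfl⟩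
      exact hW' ⟨x.1, x.2.2⟩ w hw
    · rw [Matrix.zero_mulVec]
      exact W'.zero_mem
    · intro x y _ _ hx hy
      rw [Matrix.add_mulVec]
      exact W'.add_mem hx hy
    · intro d x _ hx
      rw [Matrix.smul_mulVec]
      exact W'.smul_mem d hx
  · intro g hg
    obtain ⟨h, hh, u, hu, rfl⟩ := hgen g
    have hh1 : h ∈ H₁ := by
      have h3 := H₁.mul_mem hg (H₁.inv_mem (hN1 hu))
      rwa [mul_inv_cancel_right] at h3
    rw [hval, hR h hh u hu]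
    have h3 := t_trace D ((toM ρ₂) ⟨h, hh⟩) (ρ₁ ⟨h, hh1⟩ : Matrix (Fin n) (Fin n) k) (fun x => by
      have h4 := htr (h * x.1) (H₁.mul_mem hh1 (hN1 x.2.1)) (H₂.mul_mem hh x.2.2)
      have e1 : (ρ₁ ⟨h * x.1, H₁.mul_mem hh1 (hN1 x.2.1)⟩ : Matrix (Fin n) (Fin n) k) =
          (ρ₁ ⟨h, hh1⟩ : Matrix (Fin n) (Fin n) k) * (toM (ρ₁.comp (Subgroup.inclusion hN1))) ⟨x.1, x.2.1⟩ := by
        show _ = (ρ₁ ⟨h, hh1⟩ : Matrix (Fin n) (Fin n) k) *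
          (ρ₁ (Subgroup.inclusion hN1 ⟨x.1, x.2.1⟩) : Matrix (Fin n) (Fin n) k)
        rw [← Units.val_mul, ← map_mul]
        rfl
      have e2 : (ρ₂ ⟨h * x.1, H₂.mul_mem hh x.2.2⟩ : Matrix (Fin n) (Fin n) k) =
          (toM ρ₂) ⟨h, hh⟩ * (toM ρ₂) ⟨x.1, x.2.2⟩ := by
        rw [← map_mul]
        rfl
      rw [e1, e2] at h4
      exact h4.symm) ⟨u, hu⟩
    rw [h3]
    congr 1
    show (ρ₁ ⟨h, hh1⟩ : Matrix (Fin n) (Fin n) k) *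
          (ρ₁ (Subgroup.inclusion hN1 ⟨u, hu⟩) : Matrix (Fin n) (Fin n) k) = _
    rw [← Units.val_mul, ← map_mul]
    rfl
  · intro u hu h1
    apply Units.ext
    rw [hval]
    have h3 := hR 1 H₂.one_mem u hu
    rw [one_mul] at h3
    rw [h3, t_eq_one D ⟨u, hu⟩ (by
      show (ρ₁ ⟨u, hN1 hu⟩ : Matrix (Fin n) (Fin n) k) = 1
      rw [h1]
      rfl), mul_one]
    exact map_one (toM ρ₂)

end

section top

variable {G : Type*} [Group G] [TopologicalSpace G] [IsTopologicalGroup G] {k : Type*} [Field k]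
  [TopologicalSpace k] [IsTopologicalRing k] {n : ℕ}

/-- continuity from an open subgroup -/
theorem continuous_of_open {H : Subgroup G} (hH : IsOpen (H : Set G)) {ρ : G →* GL (Fin n) k} {ρ₂ : H →* GL (Fin n) k}
    (h : ∀ (g : G) (hg : g ∈ H), ρ g = ρ₂ ⟨g, hg⟩) (hc : Continuous ρ₂) : Continuous ρ := by
  refine continuous_of_continuousAt_one ρ ?_
  have h1 : ContinuousOn ρ (H : Set G) := by
    rw [continuousOn_iff_continuous_restrict]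
    have e : (H : Set G).domRestrict ρ = ρ₂ := by
      funext x
      exact h x.1 x.2
    rw [e]
    exact hc
  exact h1.continuousAt (hH.mem_nhds H.one_mem)

end top

end Pool.Agent.X289.TF
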