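import Pool.Agent.X289.TF.Clifford

/-! Two-dimensional pseudo-representations over algebraically closed fields of arbitrary characteristic. -/

set_option autoImplicit false
set_option linter.all false

namespace Pool.Agent.X289.TF

open Matrix Module
open Pool.Agent.X320.DS

variable {G : Type*} [Group G] {k : Type*} [Field k]

/-- a pair `(T, D)` which behaves like trace and determinant of a two-dimensional representation; the
conditions concern pairs of elements -/
structure PR (T D : G → k) : Prop where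
  one : T 1 = 2
  comm : ∀ g h, T (g * h) = T (h * g)
  mulD : ∀ g h, D (g * h) = D g * D h
  D0 : ∀ g, D g ≠ 0
  tr : ∀ g h, T (g * h) + D h * T (g * h⁻¹) = T g * T h

namespace PR

variable {T D : G → k} (P : PR T D)

include P

theorem D1 : D 1 = 1 := by
  have h := P.mulD 1 1
  rw [mul_one] at h
  exact (mul_right_cancel₀ (P.D0 1) (by rw [one_mul]; exact h)).symm

theorem Dinv (g : G) : D g⁻¹ = (D g)⁻¹ := by
  have h := P.mulD g g⁻¹
  rw [mul_inv_cancel, P.D1] at h
  exact eq_inv_of_mul_eq_one_right h.symm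

/-- the trace identity for three elements -/
theorem tri (x y z : G) : T (x * y * z) + T (y * x * z) =
    T x * T (y * z) + T y * T (x * z) + T z * T (x * y) - T x * T y * T z := by
  have e1 := P.tr x (y * z)
  have e2 := P.tr (x * z⁻¹) y
  have e3 := P.tr x z
  have e4 := P.tr (y * x) z
  rw [_root_.mul_inv_rev, ← mul_assoc, ← mul_assoc, P.mulD] at e1
  rw [P.comm (x * z⁻¹) y, ← mul_assoc] at e2
  rw [P.comm y x] at e4
  linear_combination e1 - D z * e2 - T y * e3 + e4

/-- Cayley-Hamilton -/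
theorem ch (g x : G) : T (g * (g * x)) = T g * T (g * x) - D g * T x := by
  have e1 := P.tr (g * x) g
  have e2 : T (g * x * g⁻¹) = T x := by
    rw [P.comm]
    congr 1
    group
  rw [e2, P.comm (g * x) g] at e1
  linear_combination e1

theorem kk (g x y : G) : T (g * (x * (g * y))) = T (g * x) * T (g * y) + D g * (T (x * y) - T x * T y) := by
  have e1 := P.tr (g * x) (g * y)
  have e2 := P.tr x y
  have e3 : T (g * x * (g * y)⁻¹) = T (x * y⁻¹) := by
    rw [P.comm]
    rw [show (g * y)⁻¹ * (g * x) = y⁻¹ * x by group, P.comm]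
  rw [e3, P.mulD] at e1
  rw [show g * (x * (g * y)) = g * x * (g * y) by group]
  linear_combination e1 - D g * e2

end PR

section fix

variable {T D : G → k}

/-- the first diagonal entry -/
def fa (T : G → k) (g₀ : G) (l m : k) (x : G) : k := (T (g₀ * x) - m * T x) / (l - m)

/-- the second diagonal entry -/
def fd (T : G → k) (g₀ : G) (l m : k) (x : G) : k := (l * T x - T (g₀ * x)) / (l - m)

/-- the product of the off-diagonal entries -/
def fX (T : G → k) (g₀ : G) (l m : k) (x y : G) : k := fa T g₀ l m (x * y) - fa T g₀ l m x * fa T g₀ l m y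

variable (P : PR T D) {g₀ : G} {l m : k} (hlm : l ≠ m) (h1 : l + m = T g₀) (h2 : l * m = D g₀)

include P hlm h1 h2

theorem fa_add (x : G) : fa T g₀ l m x + fd T g₀ l m x = T x := by
  have h : l - m ≠ 0 := sub_ne_zero.2 hlm
  rw [fa, fd]
  field_simp
  ring

theorem fa_mul (x : G) : (l - m) * fa T g₀ l m x = T (g₀ * x) - m * T x := by
  have h : l - m ≠ 0 := sub_ne_zero.2 hlm
  rw [fa]
  field_simp

theorem fd_mul (x : G) : (l - m) * fd T g₀ l m x = l * T x - T (g₀ * x) := by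
  have h : l - m ≠ 0 := sub_ne_zero.2 hlm
  rw [fd]
  field_simp

theorem fa_g (x : G) : fa T g₀ l m (g₀ * x) = l * fa T g₀ l m x := by
  have h : l - m ≠ 0 := sub_ne_zero.2 hlm
  apply mul_left_cancel₀ h
  have e1 := fa_mul P hlm h1 h2 x
  have e2 := fa_mul P hlm h1 h2 (g₀ * x)
  have e3 := P.ch g₀ x
  rw [← h1, ← h2] at e3
  linear_combination e2 + e3 - l * e1

theorem fd_g (x : G) : fd T g₀ l m (g₀ * x) = m * fd T g₀ l m x := by
  have h : l - m ≠ 0 := sub_ne_zero.2 hlm
  apply mul_left_cancel₀ h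
  have e1 := fd_mul P hlm h1 h2 x
  have e2 := fd_mul P hlm h1 h2 (g₀ * x)
  have e3 := P.ch g₀ x
  rw [← h1, ← h2] at e3
  linear_combination e2 - e3 - m * e1

theorem i0 (x y : G) : T (g₀ * (x * y)) + T (g₀ * (y * x)) =
    (l + m) * T (x * y) + T x * T (g₀ * y) + T y * T (g₀ * x) - (l + m) * T x * T y := by
  have e := P.tri g₀ x y
  rw [← h1] at e
  have e2 : T (x * g₀ * y) = T (g₀ * (y * x)) := by
    rw [mul_assoc, P.comm, mul_assoc]
  rw [e2, mul_assoc] at e
  linear_combination e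

theorem fa_mid (x y : G) : fa T g₀ l m (x * (g₀ * y)) = m * fa T g₀ l m (x * y) +
    (l - m) * fa T g₀ l m x * fa T g₀ l m y := by
  have h : l - m ≠ 0 := sub_ne_zero.2 hlm
  apply mul_left_cancel₀ h
  have e1 := fa_mul P hlm h1 h2 (x * (g₀ * y))
  have e2 := fa_mul P hlm h1 h2 (x * y)
  have e3 := fa_mul P hlm h1 h2 x
  have e4 := fa_mul P hlm h1 h2 y
  have e5 := P.kk g₀ x y
  have e6 := i0 P hlm h1 h2 x y
  have e7 : T (x * (g₀ * y)) = T (g₀ * (y * x)) := by rw [P.comm, mul_assoc]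
  rw [e7] at e1
  rw [← h2] at e5
  linear_combination e1 + e5 - m * e2 - m * e6 - (T (g₀ * x) - m * T x) * e4 - (l - m) * fa T g₀ l m y * e3

theorem fd_mid (x y : G) : fd T g₀ l m (x * (g₀ * y)) = l * fd T g₀ l m (x * y) -
    (l - m) * fd T g₀ l m x * fd T g₀ l m y := by
  have h : l - m ≠ 0 := sub_ne_zero.2 hlm
  apply mul_left_cancel₀ h
  have e1 := fd_mul P hlm h1 h2 (x * (g₀ * y))
  have e2 := fd_mul P hlm h1 h2 (x * y)
  have e3 := fd_mul P hlm h1 h2 x
  have e4 := fd_mul P hlm h1 h2 y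
  have e5 := P.kk g₀ x y
  have e6 := i0 P hlm h1 h2 x y
  have e7 : T (x * (g₀ * y)) = T (g₀ * (y * x)) := by rw [P.comm, mul_assoc]
  rw [e7] at e1
  rw [← h2] at e5
  linear_combination e1 - e5 - l * e2 + l * e6 + (l * T x - T (g₀ * x)) * e4 + (l - m) * fd T g₀ l m y * e3

/-- `d (x y) - d x d y = a (y x) - a y a x` -/
theorem fd_mul' (x y : G) : fd T g₀ l m (x * y) = fd T g₀ l m x * fd T g₀ l m y + fX T g₀ l m y x := by
  have h : l - m ≠ 0 := sub_ne_zero.2 hlm
  apply mul_left_cancel₀ h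
  rw [fX]
  have e1 := fd_mul P hlm h1 h2 (x * y)
  have e2 := fa_mul P hlm h1 h2 (y * x)
  have e3 := fd_mul P hlm h1 h2 x
  have e4 := fd_mul P hlm h1 h2 y
  have e5 := fa_mul P hlm h1 h2 x
  have e6 := fa_mul P hlm h1 h2 y
  have e7 := i0 P hlm h1 h2 x y
  have e8 := P.comm x y
  apply mul_left_cancel₀ h
  rw [← e8] at e2
  linear_combination (l - m) * e1 - (l - m) * e2 - (l - m) * e7 - (l - m) * fd T g₀ l m y * e3 -
    (l * T x - T (g₀ * x)) * e4 + (l - m) * fa T g₀ l m x * e6 + (T (g₀ * y) - m * T y) * e5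

theorem S_eq (w : G) : l * fa T g₀ l m w + m * fd T g₀ l m w = T (g₀ * w) := by
  have h : l - m ≠ 0 := sub_ne_zero.2 hlm
  apply mul_left_cancel₀ h
  have e1 := fa_mul P hlm h1 h2 w
  have e2 := fd_mul P hlm h1 h2 w
  linear_combination l * e1 + m * e2

theorem S_exp (x y z : G) : T (g₀ * (x * (g₀ * (y * (g₀ * z))))) =
    l * m * (m * fa T g₀ l m (x * (y * z)) + l * fd T g₀ l m (x * (y * z))) +
    l * m * (l - m) * (fa T g₀ l m (x * y) * fa T g₀ l m z + fa T g₀ l m x * fa T g₀ l m (y * z) -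
      fd T g₀ l m (x * y) * fd T g₀ l m z - fd T g₀ l m x * fd T g₀ l m (y * z)) +
    (l - m) ^ 2 * (l * fa T g₀ l m x * fa T g₀ l m y * fa T g₀ l m z +
      m * fd T g₀ l m x * fd T g₀ l m y * fd T g₀ l m z) := by
  rw [← S_eq P hlm h1 h2]
  have e1 := fa_mid P hlm h1 h2 x (y * (g₀ * z))
  have e2 := fa_mid P hlm h1 h2 (x * y) z
  have e3 := fa_mid P hlm h1 h2 y z
  have d1 := fd_mid P hlm h1 h2 x (y * (g₀ * z))
  have d2 := fd_mid P hlm h1 h2 (x * y) z
  have d3 := fd_mid P hlm h1 h2 y z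
  rw [mul_assoc x y] at e2 d2
  rw [mul_assoc x y z] at e2 d2
  rw [e1, e2, e3, d1, d2, d3]
  ring

/-- the relation between `a` and `d` on triple products -/
theorem relN (x y z : G) : fa T g₀ l m (x * (y * z)) - fd T g₀ l m (x * (y * z)) =
    fa T g₀ l m x * fa T g₀ l m (y * z) - fd T g₀ l m x * fd T g₀ l m (y * z) +
    fa T g₀ l m (x * y) * fa T g₀ l m z - fd T g₀ l m (x * y) * fd T g₀ l m z -
    fa T g₀ l m y * fa T g₀ l m (z * x) + fd T g₀ l m y * fd T g₀ l m (z * x) := by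
  have h : l - m ≠ 0 := sub_ne_zero.2 hlm
  have hδ : l * m ≠ 0 := by rw [h2]; exact P.D0 g₀
  apply mul_left_cancel₀ (mul_ne_zero hδ h)
  have e1 := S_exp P hlm h1 h2 x y z
  have e2 := S_exp P hlm h1 h2 y z x
  have e3 : T (g₀ * (x * (g₀ * (y * (g₀ * z))))) = T (g₀ * (y * (g₀ * (z * (g₀ * x))))) := by
    rw [show g₀ * (x * (g₀ * (y * (g₀ * z)))) = g₀ * x * (g₀ * (y * (g₀ * z))) by group, P.comm]
    congr 1
    group
  have e4 := fd_mul' P hlm h1 h2 x (y * z)
  rw [fX, mul_assoc y z x] at e4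
  have e5 : fa T g₀ l m (x * (y * z)) + fd T g₀ l m (x * (y * z)) =
      fa T g₀ l m (y * (z * x)) + fd T g₀ l m (y * (z * x)) := by
    rw [fa_add P hlm h1 h2, fa_add P hlm h1 h2, P.comm, mul_assoc]
  rw [e3, e2] at e1
  linear_combination e1 - l * m * (l - m) * e4 + l * m * l * e5

/-- `a (x y z)` -/
theorem fa_triple (x y z : G) : fX T g₀ l m (x * y) z =
    fa T g₀ l m x * fX T g₀ l m y z + fd T g₀ l m y * fX T g₀ l m x z := by
  have h : l - m ≠ 0 := sub_ne_zero.2 hlm
  apply mul_left_cancel₀ h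
  have e1 := relN P hlm h1 h2 x y z
  have e2 := relN P hlm h1 h2 (g₀ * x) y z
  have e3 := fa_g P hlm h1 h2 x
  have e4 := fd_g P hlm h1 h2 x
  have e5 := fa_mid P hlm h1 h2 z x
  have e6 := fd_mid P hlm h1 h2 z x
  have e7 := fd_mul' P hlm h1 h2 z x
  rw [mul_assoc g₀ x, mul_assoc g₀ x, fa_g P hlm h1 h2, fd_g P hlm h1 h2, fa_g P hlm h1 h2, fd_g P hlm h1 h2,
    fa_g P hlm h1 h2, fd_g P hlm h1 h2, e5, e6] at e2
  rw [fX] at e7
  rw [fX, fX, fX, mul_assoc]
  linear_combination e2 - m * e1 + (l - m) * fd T g₀ l m y * e7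

/-- the opposite relation -/
theorem fa_triple' (x y z : G) : fX T g₀ l m x (y * z) =
    fX T g₀ l m x y * fa T g₀ l m z + fd T g₀ l m y * fX T g₀ l m x z := by
  have e := fa_triple P hlm h1 h2 x y z
  rw [fX, fX, fX, mul_assoc] at e
  rw [fX, fX, fX]
  linear_combination e

theorem fX_mul (a b r s : G) : fX T g₀ l m a s * fX T g₀ l m r b = fX T g₀ l m a b * fX T g₀ l m r s := by
  have e1 := fa_triple P hlm h1 h2 (a * s) r b
  have e2 := fa_triple P hlm h1 h2 a s b
  have e3 := fa_triple P hlm h1 h2 a (s * r) b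
  have e4 := fa_triple P hlm h1 h2 s r b
  have e5 := fd_mul' P hlm h1 h2 s r
  have e6 : fX T g₀ l m a s = fa T g₀ l m (a * s) - fa T g₀ l m a * fa T g₀ l m s := rfl
  rw [mul_assoc a s r, e3, e4, e2, e5] at e1
  rw [e6]
  linear_combination (-1 : k) * e1

theorem fa_one : fa T g₀ l m 1 = 1 := by
  have h : l - m ≠ 0 := sub_ne_zero.2 hlm
  apply mul_left_cancel₀ h
  have e := fa_mul P hlm h1 h2 1
  rw [mul_one, P.one, ← h1] at e
  linear_combination e

theorem fd_one : fd T g₀ l m 1 = 1 := by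
  have h : l - m ≠ 0 := sub_ne_zero.2 hlm
  apply mul_left_cancel₀ h
  have e := fd_mul P hlm h1 h2 1
  rw [mul_one, P.one, ← h1] at e
  linear_combination e

theorem D_eq (x : G) : D x = fa T g₀ l m x * fd T g₀ l m x - fX T g₀ l m x x := by
  have h : l - m ≠ 0 := sub_ne_zero.2 hlm
  apply mul_left_cancel₀ h
  have e1 := fa_mul P hlm h1 h2 (x * x)
  have e2 := P.tr (g₀ * x) x
  have e3 := P.tr x x
  have e4 := fa_add P hlm h1 h2 x
  have e5 := fa_mul P hlm h1 h2 x
  rw [mul_inv_cancel_right, mul_assoc, ← h1] at e2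
  rw [mul_inv_cancel, P.one] at e3
  rw [fX]
  linear_combination e1 + e2 - m * e3 - (l - m) * fa T g₀ l m x * e4 - T x * e5

theorem fX_one_left (s : G) : fX T g₀ l m 1 s = 0 := by
  rw [fX, one_mul, fa_one P hlm h1 h2, one_mul, sub_self]

theorem fX_one_right (s : G) : fX T g₀ l m s 1 = 0 := by
  rw [fX, mul_one, fa_one P hlm h1 h2, mul_one, sub_self]

theorem fa_mul_eq (x y : G) : fa T g₀ l m (x * y) = fa T g₀ l m x * fa T g₀ l m y + fX T g₀ l m x y := by
  rw [fX]
  ring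

/-- the matrices in the irreducible case -/
def mt (T : G → k) (g₀ : G) (l m : k) (r s x : G) : Matrix (Fin 2) (Fin 2) k :=
  !![fa T g₀ l m x, fX T g₀ l m x s / fX T g₀ l m r s; fX T g₀ l m r x, fd T g₀ l m x]

theorem mt_mul {r s : G} (hrs : fX T g₀ l m r s ≠ 0) (x y : G) :
    mt T g₀ l m r s (x * y) = mt T g₀ l m r s x * mt T g₀ l m r s y := by
  have e1 := fX_mul P hlm h1 h2 x y r s
  have e2 := fX_mul P hlm h1 h2 y x r s
  have e3 := fa_mul_eq P hlm h1 h2 x y
  have e4 := fd_mul' P hlm h1 h2 x y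
  have e5 := fa_triple P hlm h1 h2 x y s
  have e6 := fa_triple' P hlm h1 h2 r x y
  rw [mt, mt, mt, Matrix.mul_fin_two]
  have f1 : fa T g₀ l m (x * y) = fa T g₀ l m x * fa T g₀ l m y +
      fX T g₀ l m x s / fX T g₀ l m r s * fX T g₀ l m r y := by
    rw [e3]
    field_simp
    linear_combination -e1
  have f2 : fX T g₀ l m (x * y) s / fX T g₀ l m r s = fa T g₀ l m x * (fX T g₀ l m y s / fX T g₀ l m r s) +
      fX T g₀ l m x s / fX T g₀ l m r s * fd T g₀ l m y := by
    rw [e5]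
    field_simp
  have f3 : fX T g₀ l m r (x * y) = fX T g₀ l m r x * fa T g₀ l m y + fd T g₀ l m x * fX T g₀ l m r y := e6
  have f4 : fd T g₀ l m (x * y) = fX T g₀ l m r x * (fX T g₀ l m y s / fX T g₀ l m r s) +
      fd T g₀ l m x * fd T g₀ l m y := by
    rw [e4]
    field_simp
    linear_combination -e2
  rw [f1, f2, f3, f4]

theorem mt_one (r s : G) : mt T g₀ l m r s 1 = 1 := by
  rw [mt, fa_one P hlm h1 h2, fd_one P hlm h1 h2, fX_one_left P hlm h1 h2, fX_one_right P hlm h1 h2, zero_div]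
  exact Matrix.one_fin_two.symm

theorem mt_trace (r s x : G) : (mt T g₀ l m r s x).trace = T x := by
  rw [mt, Matrix.trace_fin_two_of]
  exact fa_add P hlm h1 h2 x

theorem mt_det {r s : G} (hrs : fX T g₀ l m r s ≠ 0) (x : G) : (mt T g₀ l m r s x).det = D x := by
  rw [mt, Matrix.det_fin_two_of, D_eq P hlm h1 h2]
  have e := fX_mul P hlm h1 h2 x x r s
  field_simp
  linear_combination -e

end fix

end Pool.Agent.X289.TF
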