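import Pool.Agent.X289.TF.Pseudo

/-! The representation of a two-dimensional pseudo-representation. -/

set_option autoImplicit false
set_option linter.all false

namespace Pool.Agent.X289.TF

open Matrix Module
open Pool.Agent.X320.DS

variable {G : Type*} [Group G] {k : Type*} [Field k]

/-- the span of the translates of `T` -/
def TS (T : G → k) : Submodule k (G → k) := Submodule.span k (Set.range fun p : G × G => fun x => T (p.1 * x * p.2))

theorem mem_TS (T : G → k) (y z : G) : (fun x => T (y * x * z)) ∈ TS T := Submodule.subset_span ⟨(y, z), rfl⟩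

theorem mem_TS0 (T : G → k) : T ∈ TS T := by
  have h := mem_TS T 1 1
  have e : (fun x => T (1 * x * 1)) = T := by
    funext x
    rw [one_mul, mul_one]
  rwa [e] at h

theorem mem_TS1 (T : G → k) (y : G) : (fun x => T (y * x)) ∈ TS T := by
  have h := mem_TS T y 1
  have e : (fun x => T (y * x * 1)) = fun x => T (y * x) := by
    funext x
    rw [mul_one]
  rwa [e] at h

theorem mem_TS2 (T : G → k) (y z : G) : (fun x => T (y * (x * z))) ∈ TS T := by
  have h := mem_TS T y z
  have e : (fun x => T (y * x * z)) = fun x => T (y * (x * z)) := by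
    funext x
    rw [mul_assoc]
  rwa [e] at h

theorem mem_TS2' (T : G → k) (z : G) : (fun x => T (x * z)) ∈ TS T := by
  have h := mem_TS T 1 z
  have e : (fun x => T (1 * x * z)) = fun x => T (x * z) := by
    funext x
    rw [one_mul]
  rwa [e] at h

theorem fa_TS (T : G → k) (g₀ : G) (l m : k) : fa T g₀ l m ∈ TS T := by
  have e : fa T g₀ l m = (l - m)⁻¹ • ((fun x => T (g₀ * x)) - m • T) := by
    funext x
    rw [fa, div_eq_inv_mul]
    rfl
  rw [e]
  exact Submodule.smul_mem _ _ (Submodule.sub_mem _ (mem_TS1 T g₀) (Submodule.smul_mem _ _ (mem_TS0 T)))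

theorem fd_TS (T : G → k) (g₀ : G) (l m : k) : fd T g₀ l m ∈ TS T := by
  have e : fd T g₀ l m = (l - m)⁻¹ • (l • T - (fun x => T (g₀ * x))) := by
    funext x
    rw [fd, div_eq_inv_mul]
    rfl
  rw [e]
  exact Submodule.smul_mem _ _ (Submodule.sub_mem _ (Submodule.smul_mem _ _ (mem_TS0 T)) (mem_TS1 T g₀))

theorem fX_TS1 (T : G → k) (g₀ : G) (l m : k) (s : G) : (fun x => fX T g₀ l m x s) ∈ TS T := by
  have e : (fun x => fX T g₀ l m x s) = (l - m)⁻¹ • ((fun x => T (g₀ * (x * s))) - m • fun x => T (x * s)) -
      fa T g₀ l m s • fa T g₀ l m := by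
    funext x
    show fX T g₀ l m x s = (l - m)⁻¹ * (T (g₀ * (x * s)) - m * T (x * s)) - fa T g₀ l m s * fa T g₀ l m x
    rw [fX, fa, div_eq_inv_mul]
    ring
  rw [e]
  exact Submodule.sub_mem _ (Submodule.smul_mem _ _ (Submodule.sub_mem _ (mem_TS2 T g₀ s)
    (Submodule.smul_mem _ _ (mem_TS2' T s)))) (Submodule.smul_mem _ _ (fa_TS T g₀ l m))

theorem fX_TS2 (T : G → k) (g₀ : G) (l m : k) (r : G) : (fun x => fX T g₀ l m r x) ∈ TS T := by
  have e : (fun x => fX T g₀ l m r x) = (l - m)⁻¹ • ((fun x => T ((g₀ * r) * x)) - m • fun x => T (r * x)) -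
      fa T g₀ l m r • fa T g₀ l m := by
    funext x
    show fX T g₀ l m r x = (l - m)⁻¹ * (T ((g₀ * r) * x) - m * T (r * x)) - fa T g₀ l m r * fa T g₀ l m x
    rw [fX, fa, div_eq_inv_mul, mul_assoc]
  rw [e]
  exact Submodule.sub_mem _ (Submodule.smul_mem _ _ (Submodule.sub_mem _ (mem_TS1 T (g₀ * r))
    (Submodule.smul_mem _ _ (mem_TS1 T r)))) (Submodule.smul_mem _ _ (fa_TS T g₀ l m))

/-- a subspace of `k²` which contains both basis vectors -/
theorem top_of_basis {W : Submodule k (Fin 2 → k)} (h0 : ![1, 0] ∈ W) (h1 : ![0, 1] ∈ W) : W = ⊤ := by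
  rw [eq_top_iff]
  intro w _
  have e : w = w 0 • ![1, 0] + w 1 • ![0, 1] := by
    funext i
    fin_cases i <;> simp
  rw [e]
  exact W.add_mem (W.smul_mem _ h0) (W.smul_mem _ h1)

/-- diagonal representations are semisimple -/
theorem ss_diag {ρ : G →* GL (Fin 2) k} (h01 : ∀ x, (ρ x : Matrix (Fin 2) (Fin 2) k) 0 1 = 0)
    (h10 : ∀ x, (ρ x : Matrix (Fin 2) (Fin 2) k) 1 0 = 0) : Semisimple ρ := by
  have st0 : Stable ρ (Submodule.span k {![1, 0]}) := by
    intro g w hw
    obtain ⟨c, rfl⟩ := Submodule.mem_span_singleton.1 hw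
    refine Submodule.mem_span_singleton.2 ⟨(ρ g : Matrix (Fin 2) (Fin 2) k) 0 0 * c, ?_⟩
    funext i
    fin_cases i
    · simp [Matrix.mulVec, dotProduct, Fin.sum_univ_two]
    · simp [Matrix.mulVec, dotProduct, Fin.sum_univ_two, h10]
  have st1 : Stable ρ (Submodule.span k {![0, 1]}) := by
    intro g w hw
    obtain ⟨c, rfl⟩ := Submodule.mem_span_singleton.1 hw
    refine Submodule.mem_span_singleton.2 ⟨(ρ g : Matrix (Fin 2) (Fin 2) k) 1 1 * c, ?_⟩
    funext i
    fin_cases i
    · simp [Matrix.mulVec, dotProduct, Fin.sum_univ_two, h01]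
    · simp [Matrix.mulVec, dotProduct, Fin.sum_univ_two]
  intro W hW
  by_cases hb : W = ⊥
  · exact ⟨⊤, fun _ _ _ => trivial, by rw [hb]; exact isCompl_bot_top⟩
  by_cases h0 : ![1, 0] ∈ W
  · by_cases h1 : ![0, 1] ∈ W
    · rw [top_of_basis h0 h1]
      exact ⟨⊥, stable_bot ρ, isCompl_top_bot⟩
    · refine ⟨_, st1, ?_, ?_⟩
      · rw [Submodule.disjoint_def]
        intro x hx hx'
        obtain ⟨c, rfl⟩ := Submodule.mem_span_singleton.1 hx'
        by_cases hc : c = 0
        · rw [hc, zero_smul]
        · exfalso
          apply h1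
          have := W.smul_mem c⁻¹ hx
          rwa [smul_smul, inv_mul_cancel₀ hc, one_smul] at this
      · rw [codisjoint_iff]
        exact top_of_basis (Submodule.mem_sup_left h0)
          (Submodule.mem_sup_right (Submodule.mem_span_singleton_self _))
  · refine ⟨_, st0, ?_, ?_⟩
    · rw [Submodule.disjoint_def]
      intro x hx hx'
      obtain ⟨c, rfl⟩ := Submodule.mem_span_singleton.1 hx'
      by_cases hc : c = 0
      · rw [hc, zero_smul]
      · exfalso
        apply h0
        have := W.smul_mem c⁻¹ hx
        rwa [smul_smul, inv_mul_cancel₀ hc, one_smul] at this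
    · rw [codisjoint_iff]
      obtain ⟨w, hw, hw0⟩ := W.exists_mem_ne_zero_of_ne_bot hb
      have h1 : ![(1 : k), 0] ∈ W ⊔ Submodule.span k {![1, 0]} :=
        Submodule.mem_sup_right (Submodule.mem_span_singleton_self _)
      refine top_of_basis h1 ?_
      have hw1 : w 1 ≠ 0 := by
        intro h
        have e : w = w 0 • ![1, 0] := by
          funext i
          fin_cases i
          · simp
          · simpa using h
        have hw00 : w 0 ≠ 0 := by
          intro h'
          apply hw0
          rw [e, h', zero_smul]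
        apply h0
        have := W.smul_mem (w 0)⁻¹ hw
        rw [e] at this
        simpa [smul_smul, inv_mul_cancel₀ hw00] using this
      have h2 : w - w 0 • ![1, 0] ∈ W ⊔ Submodule.span k {![1, 0]} :=
        Submodule.sub_mem _ (Submodule.mem_sup_left hw) (Submodule.smul_mem _ _ h1)
      have h3 := Submodule.smul_mem _ (w 1)⁻¹ h2
      have e : (w 1)⁻¹ • (w - w 0 • ![1, 0]) = ![0, 1] := by
        funext i
        fin_cases i
        · show (w 1)⁻¹ * (w 0 - w 0 * 1) = 0
          ring
        · show (w 1)⁻¹ * (w 1 - w 0 * 0) = 1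
          rw [mul_zero, sub_zero, inv_mul_cancel₀ hw1]
      rwa [e] at h3

variable {T D : G → k}

/-- **Two-dimensional pseudo-representations over algebraically closed fields come from representations.** -/
theorem exists_rep [IsAlgClosed k] (P : PR T D) : ∃ ρ : G →* GL (Fin 2) k, Semisimple ρ ∧
    (∀ x, (ρ x : Matrix (Fin 2) (Fin 2) k).trace = T x) ∧ (∀ x, (ρ x : Matrix (Fin 2) (Fin 2) k).det = D x) ∧
    ((∀ i j, (fun x => (ρ x : Matrix (Fin 2) (Fin 2) k) i j) ∈ TS T) ∨
      ((2 : k) = 0 ∧ ∃ χ : G → k, ∀ x, (ρ x : Matrix (Fin 2) (Fin 2) k) = !![χ x, 0; 0, χ x] ∧ χ x ^ 2 = D x)) := by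
  classical
  have mkrep : ∀ M : G → Matrix (Fin 2) (Fin 2) k, M 1 = 1 → (∀ x y, M (x * y) = M x * M y) →
      ∃ ρ : G →* GL (Fin 2) k, ∀ x, (ρ x : Matrix (Fin 2) (Fin 2) k) = M x := by
    intro M hM1 hM
    let R : G →* Matrix (Fin 2) (Fin 2) k := ⟨⟨M, hM1⟩, hM⟩
    exact ⟨R.toHomUnits, fun x => MonoidHom.coe_toHomUnits R x⟩
  by_cases hex : ∃ g₀, T g₀ ^ 2 ≠ 4 * D g₀
  · obtain ⟨g₀, hg₀⟩ := hex
    -- eigenvalues
    obtain ⟨l, hl⟩ : ∃ l : k, l ^ 2 - T g₀ * l + D g₀ = 0 := by
      have hdeg : (Polynomial.C 1 * Polynomial.X ^ 2 + Polynomial.C (-T g₀) * Polynomial.X +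
          Polynomial.C (D g₀) : Polynomial k).degree = 2 := Polynomial.degree_quadratic one_ne_zero
      obtain ⟨l, hl⟩ := IsAlgClosed.exists_root _ (by rw [hdeg]; decide)
      refine ⟨l, ?_⟩
      have := hl
      simp only [Polynomial.IsRoot.def, Polynomial.eval_add, Polynomial.eval_mul, Polynomial.eval_C,
        Polynomial.eval_pow, Polynomial.eval_X] at this
      linear_combination this
    set m : k := T g₀ - l with hm
    have h1 : l + m = T g₀ := by rw [hm]; ring
    have h2 : l * m = D g₀ := by rw [hm]; linear_combination -hl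
    have hlm : l ≠ m := by
      intro h
      apply hg₀
      rw [← h1, ← h2, h]
      ring
    have hg : l - m ≠ 0 := sub_ne_zero.2 hlm
    by_cases hX : ∃ r s, fX T g₀ l m r s ≠ 0
    · obtain ⟨r, s, hrs⟩ := hX
      obtain ⟨ρ, hρ⟩ := mkrep (mt T g₀ l m r s) (mt_one P hlm h1 h2 r s) (mt_mul P hlm h1 h2 hrs)
      refine ⟨ρ, ?_, fun x => by rw [hρ, mt_trace P hlm h1 h2], fun x => by rw [hρ, mt_det P hlm h1 h2 hrs],
        Or.inl fun i j => ?_⟩
      · intro W hW
        by_cases hb : W = ⊥
        · exact ⟨⊤, fun _ _ _ => trivial, by rw [hb]; exact isCompl_bot_top⟩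
        · obtain ⟨w, hw, hw0⟩ := W.exists_mem_ne_zero_of_ne_bot hb
          have fag : fa T g₀ l m g₀ = l := by
            have := fa_g P hlm h1 h2 1
            rwa [mul_one, fa_one P hlm h1 h2, mul_one] at this
          have fdg : fd T g₀ l m g₀ = m := by
            have := fd_g P hlm h1 h2 1
            rwa [mul_one, fd_one P hlm h1 h2, mul_one] at this
          have fxg1 : fX T g₀ l m g₀ s = 0 := by
            rw [fX, fa_g P hlm h1 h2, fag, sub_self]
          have fxg2 : fX T g₀ l m r g₀ = 0 := by
            have h3 := fa_mid P hlm h1 h2 r 1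
            rw [mul_one, mul_one, fa_one P hlm h1 h2] at h3
            rw [fX, h3, fag]
            ring
          have hg0 : (ρ g₀ : Matrix (Fin 2) (Fin 2) k) = !![l, 0; 0, m] := by
            rw [hρ, mt, fag, fdg, fxg1, fxg2, zero_div]
          have hmem : ![l * w 0, m * w 1] ∈ W := by
            have h3 := hW g₀ w hw
            rw [hg0] at h3
            have e : !![l, 0; 0, m] *ᵥ w = ![l * w 0, m * w 1] := by
              funext i
              fin_cases i <;> simp [Matrix.mulVec, dotProduct, Fin.sum_univ_two]
            rwa [e] at h3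
          have hu : w 0 • ![1, 0] ∈ W := by
            have h3 := W.smul_mem (l - m)⁻¹ (W.sub_mem hmem (W.smul_mem m hw))
            have e : (l - m)⁻¹ • (![l * w 0, m * w 1] - m • w) = w 0 • ![1, 0] := by
              funext i
              fin_cases i
              · show (l - m)⁻¹ * (l * w 0 - m * w 0) = w 0 * 1
                field_simp
              · show (l - m)⁻¹ * (m * w 1 - m * w 1) = w 0 * 0
                rw [sub_self, mul_zero, mul_zero]
            rwa [e] at h3
          have hv : w 1 • ![0, 1] ∈ W := by
            have h3 := W.sub_mem hw hu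
            have e : w - w 0 • ![1, 0] = w 1 • ![0, 1] := by
              funext i
              fin_cases i <;> simp
            rwa [e] at h3
          have key0 : ![(1 : k), 0] ∈ W → W = ⊤ := by
            intro h
            refine top_of_basis h ?_
            have h3 := hW s _ h
            rw [hρ] at h3
            have e : mt T g₀ l m r s s *ᵥ ![1, 0] = ![fa T g₀ l m s, fX T g₀ l m r s] := by
              funext i
              fin_cases i <;> simp [mt, Matrix.mulVec, dotProduct, Fin.sum_univ_two]
            rw [e] at h3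
            have h4 := W.smul_mem (fX T g₀ l m r s)⁻¹ (W.sub_mem h3 (W.smul_mem (fa T g₀ l m s) h))
            have e2 : (fX T g₀ l m r s)⁻¹ • (![fa T g₀ l m s, fX T g₀ l m r s] - fa T g₀ l m s • ![1, 0]) =
                ![0, 1] := by
              funext i
              fin_cases i
              · simp
              · simp [inv_mul_cancel₀ hrs]
            rwa [e2] at h4
          have key1 : ![(0 : k), 1] ∈ W → W = ⊤ := by
            intro h
            refine top_of_basis ?_ h
            have h3 := hW r _ h
            rw [hρ] at h3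
            have e : mt T g₀ l m r s r *ᵥ ![0, 1] = ![1, fd T g₀ l m r] := by
              funext i
              fin_cases i
              · simp [mt, Matrix.mulVec, dotProduct, Fin.sum_univ_two, div_self hrs]
              · simp [mt, Matrix.mulVec, dotProduct, Fin.sum_univ_two]
            rw [e] at h3
            have h4 := W.sub_mem h3 (W.smul_mem (fd T g₀ l m r) h)
            have e2 : ![(1 : k), fd T g₀ l m r] - fd T g₀ l m r • ![0, 1] = ![1, 0] := by
              funext i
              fin_cases i <;> simp
            rwa [e2] at h4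
          have hT : W = ⊤ := by
            by_cases hw00 : w 0 = 0
            · have hw1 : w 1 ≠ 0 := by
                intro h
                apply hw0
                funext i
                fin_cases i
                · exact hw00
                · exact h
              apply key1
              have := W.smul_mem (w 1)⁻¹ hv
              rwa [smul_smul, inv_mul_cancel₀ hw1, one_smul] at this
            · apply key0
              have := W.smul_mem (w 0)⁻¹ hu
              rwa [smul_smul, inv_mul_cancel₀ hw00, one_smul] at this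
          rw [hT]
          exact ⟨⊥, stable_bot ρ, isCompl_top_bot⟩
      · have e : (fun x => (ρ x : Matrix (Fin 2) (Fin 2) k) i j) = fun x => mt T g₀ l m r s x i j := by
          funext x
          rw [hρ]
        rw [e]
        fin_cases i <;> fin_cases j
        · exact fa_TS T g₀ l m
        · have e2 : (fun x => fX T g₀ l m x s / fX T g₀ l m r s) =
              (fX T g₀ l m r s)⁻¹ • fun x => fX T g₀ l m x s := by
            funext x
            rw [div_eq_inv_mul]
            rfl
          show (fun x => fX T g₀ l m x s / fX T g₀ l m r s) ∈ TS T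
          rw [e2]
          exact Submodule.smul_mem _ _ (fX_TS1 T g₀ l m s)
        · exact fX_TS2 T g₀ l m r
        · exact fd_TS T g₀ l m
    · push Not at hX
      have ha : ∀ x y, fa T g₀ l m (x * y) = fa T g₀ l m x * fa T g₀ l m y := fun x y => by
        rw [fa_mul_eq P hlm h1 h2, hX, add_zero]
      have hd : ∀ x y, fd T g₀ l m (x * y) = fd T g₀ l m x * fd T g₀ l m y := fun x y => by
        rw [fd_mul' P hlm h1 h2, hX, add_zero]
      obtain ⟨ρ, hρ⟩ := mkrep (fun x => !![fa T g₀ l m x, 0; 0, fd T g₀ l m x])
        (by rw [fa_one P hlm h1 h2, fd_one P hlm h1 h2]; exact Matrix.one_fin_two.symm)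
        (fun x y => by rw [Matrix.mul_fin_two, ha, hd]; simp)
      refine ⟨ρ, ss_diag (fun x => by rw [hρ]; rfl) (fun x => by rw [hρ]; rfl), fun x => ?_, fun x => ?_,
        Or.inl fun i j => ?_⟩
      · rw [hρ, Matrix.trace_fin_two_of]
        exact fa_add P hlm h1 h2 x
      · rw [hρ, Matrix.det_fin_two_of, D_eq P hlm h1 h2 x, hX]
        ring
      · have e : (fun x => (ρ x : Matrix (Fin 2) (Fin 2) k) i j) =
            fun x => !![fa T g₀ l m x, 0; 0, fd T g₀ l m x] i j := by
          funext x
          rw [hρ]
        rw [e]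
        fin_cases i <;> fin_cases j
        · exact fa_TS T g₀ l m
        · exact Submodule.zero_mem _
        · exact Submodule.zero_mem _
        · exact fd_TS T g₀ l m
  · push Not at hex
    by_cases h2 : (2 : k) = 0
    · -- characteristic two: `T = 0`
      have h4 : (4 : k) = 0 := by linear_combination 2 * h2
      have hT : ∀ x, T x = 0 := by
        intro x
        have := hex x
        rw [h4, zero_mul] at this
        exact pow_eq_zero_iff (two_ne_zero) |>.1 this
      choose χ hχ using fun x => IsAlgClosed.exists_pow_nat_eq (D x) (n := 2) two_pos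
      have hsq : ∀ a b : k, a ^ 2 = b ^ 2 → a = b := by
        intro a b hab
        have : (a - b) ^ 2 = 0 := by linear_combination hab - b * (a - b) * h2
        exact sub_eq_zero.1 (pow_eq_zero_iff (two_ne_zero) |>.1 this)
      have hχm : ∀ x y, χ (x * y) = χ x * χ y := fun x y => hsq _ _ (by
        rw [hχ, mul_pow, hχ, hχ, P.mulD])
      have hχ1 : χ 1 = 1 := hsq _ _ (by rw [hχ, one_pow, P.D1])
      obtain ⟨ρ, hρ⟩ := mkrep (fun x => !![χ x, 0; 0, χ x])
        (by rw [hχ1]; exact Matrix.one_fin_two.symm)
        (fun x y => by rw [Matrix.mul_fin_two, hχm]; simp)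
      refine ⟨ρ, ss_diag (fun x => by rw [hρ]; rfl) (fun x => by rw [hρ]; rfl), fun x => ?_, fun x => ?_,
        Or.inr ⟨h2, χ, fun x => ⟨hρ x, hχ x⟩⟩⟩
      · rw [hρ, Matrix.trace_fin_two_of, hT]
        linear_combination χ x * h2
      · rw [hρ, Matrix.det_fin_two_of, ← hχ]
        ring
    · -- characteristic not two
      have hmul : ∀ x y, T x * T y = 2 * T (x * y) := by
        intro x y
        have e1 := P.tr x y
        have e2 := hex (x * y)
        have e3 := hex (x * y⁻¹)
        rw [P.mulD] at e2 e3
        rw [P.Dinv] at e3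
        have hy := P.D0 y
        have hx := P.D0 x
        have e4 : (D y * T (x * y⁻¹)) ^ 2 = T (x * y) ^ 2 := by
          rw [mul_pow, e3, e2]
          field_simp
        rcases sq_eq_sq_iff_eq_or_eq_neg.1 e4 with h | h
        · linear_combination -e1 + h
        · exfalso
          have e5 : T x * T y = 0 := by linear_combination -e1 + h
          have e6 : (T x * T y) ^ 2 = 16 * (D x * D y) := by
            rw [mul_pow, hex x, hex y]
            ring
          rw [e5] at e6
          have h16 : (16 : k) ≠ 0 := by
            have : (16 : k) = 2 ^ 4 := by norm_num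
            rw [this]
            exact pow_ne_zero _ h2
          have : (16 : k) * (D x * D y) ≠ 0 := mul_ne_zero h16 (mul_ne_zero hx hy)
          apply this
          rw [← e6]
          ring
      obtain ⟨ρ, hρ⟩ := mkrep (fun x => !![T x / 2, 0; 0, T x / 2])
        (by rw [P.one, div_self h2]; exact Matrix.one_fin_two.symm)
        (fun x y => by
          have e : T (x * y) / 2 = T x / 2 * (T y / 2) := by
            field_simp
            linear_combination -hmul x y
          rw [Matrix.mul_fin_two, e]
          simp)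
      refine ⟨ρ, ss_diag (fun x => by rw [hρ]; rfl) (fun x => by rw [hρ]; rfl), fun x => ?_, fun x => ?_,
        Or.inl fun i j => ?_⟩
      · rw [hρ, Matrix.trace_fin_two_of]
        field_simp
        ring
      · rw [hρ, Matrix.det_fin_two_of]
        have h4 : (4 : k) ≠ 0 := by
          have : (4 : k) = 2 ^ 2 := by norm_num
          rw [this]
          exact pow_ne_zero _ h2
        have := hex x
        field_simp
        linear_combination this
      · have e : (fun x => (ρ x : Matrix (Fin 2) (Fin 2) k) i j) =
            fun x => !![T x / 2, 0; 0, T x / 2] i j := by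
          funext x
          rw [hρ]
        rw [e]
        have e2 : (fun x => T x / 2) ∈ TS T := by
          have : (fun x => T x / 2) = (2 : k)⁻¹ • T := by
            funext x
            rw [div_eq_inv_mul]
            rfl
          rw [this]
          exact Submodule.smul_mem _ _ (mem_TS0 T)
        fin_cases i <;> fin_cases j
        · exact e2
        · exact Submodule.zero_mem _
        · exact Submodule.zero_mem _
        · exact e2

end Pool.Agent.X289.TF
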